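import Mathlib

set_option autoImplicit false

namespace Pool.Agent.U843.ME

/-- The mixed multiplicative energy: the number of quadruples `(a, b, c, d)` with `a, c ∈ B`,
`1 ≤ b, d ≤ N` and `a b = c d`. -/
def energy (B : Finset ℕ) (N : ℕ) : ℕ :=
  ((B ×ˢ Finset.Icc 1 N ×ˢ B ×ˢ Finset.Icc 1 N).filter
    (fun t => t.1 * t.2.1 = t.2.2.1 * t.2.2.2)).card

end Pool.Agent.U843.ME
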