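import Mathlib
import Pool.Agent.Erdos456.Mertens

set_option autoImplicit false

open Finset ArithmeticFunction

namespace Pool.Agent.U843.ME

/-- `z ^ Ω(n) / n` as a completely multiplicative function -/
noncomputable def wHom (z : ℝ) : ℕ →* ℝ where
  toFun n := z ^ (cardFactors n) / n
  map_one' := by simp
  map_mul' a b := by
    rcases Nat.eq_zero_or_pos a with rfl | ha
    · simp
    rcases Nat.eq_zero_or_pos b with rfl | hb
    · simp
    rw [cardFactors_mul ha.ne' hb.ne']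
    push_cast
    rw [pow_add]
    field_simp

/-- `∑_{n ≤ N} z ^ Ω(n) / n` -/
noncomputable def W (z : ℝ) (N : ℕ) : ℝ := ∑ n ∈ Icc 1 N, z ^ (cardFactors n) / (n : ℝ)

theorem W_nonneg {z : ℝ} (hz : 0 ≤ z) (N : ℕ) : 0 ≤ W z N :=
  sum_nonneg fun n _ => by positivity

theorem W_mono {z : ℝ} (hz : 0 ≤ z) {M N : ℕ} (h : M ≤ N) : W z M ≤ W z N :=
  sum_le_sum_of_subset_of_nonneg (Icc_subset_Icc le_rfl h) fun n _ _ => by positivity

theorem W_le_prod {z : ℝ} (hz : 0 ≤ z) (hz1 : z ≤ 1) (N : ℕ) :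
    W z N ≤ ∏ p ∈ Nat.primesBelow (N + 1), (1 - z / p)⁻¹ := by
  have h := EulerProduct.summable_and_hasSum_smoothNumbers_prod_primesBelow_geometric (f := wHom z)
    (fun {p} hp => by
      have h2 : (2:ℝ) ≤ p := by exact_mod_cast hp.two_le
      simp only [wHom, MonoidHom.coe_mk, OneHom.coe_mk, cardFactors_apply_prime hp, pow_one]
      rw [Real.norm_of_nonneg (by positivity), div_lt_one (by positivity)]
      linarith) (N + 1)
  obtain ⟨-, h2⟩ := h
  have h3 : HasSum ((Nat.smoothNumbers (N + 1)).indicator (fun n => wHom z n))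
      (∏ p ∈ Nat.primesBelow (N + 1), (1 - wHom z p)⁻¹) := hasSum_subtype_iff_indicator.1 h2
  have h4 := sum_le_hasSum (Icc 1 N) (fun i _ => by
    apply Set.indicator_nonneg
    intro n _
    simp only [wHom, MonoidHom.coe_mk, OneHom.coe_mk]
    positivity) h3
  have h5 : ∏ p ∈ Nat.primesBelow (N + 1), (1 - wHom z p)⁻¹ =
      ∏ p ∈ Nat.primesBelow (N + 1), (1 - z / p)⁻¹ := by
    apply Finset.prod_congr rfl
    intro p hp
    have hp' := Nat.prime_of_mem_primesBelow hp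
    simp only [wHom, MonoidHom.coe_mk, OneHom.coe_mk, cardFactors_apply_prime hp', pow_one]
  rw [h5] at h4
  refine le_trans (le_of_eq ?_) h4
  unfold W
  apply Finset.sum_congr rfl
  intro n hn
  rw [mem_Icc] at hn
  rw [Set.indicator_of_mem]
  · rfl
  · rw [Nat.mem_smoothNumbers']
    intro p hp hpn
    have := Nat.le_of_dvd (by omega) hpn
    omega

theorem sum_inv_sq_le (s : Finset ℕ) : ∑ p ∈ s, ((p : ℝ)⁻¹) ^ 2 ≤ 2 := by
  have h1 : Summable (fun n : ℕ => ((n : ℝ)⁻¹) ^ 2) := by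
    simpa using (Real.summable_nat_pow_inv (p := 2)).mpr (by norm_num)
  have h2 : ∑ p ∈ s, ((p : ℝ)⁻¹) ^ 2 ≤ ∑' n : ℕ, ((n : ℝ)⁻¹) ^ 2 :=
    h1.sum_le_tsum s (fun i _ => by positivity)
  have h3 : ∑' n : ℕ, ((n : ℝ)⁻¹) ^ 2 = Real.pi ^ 2 / 6 := by
    have := hasSum_zeta_two.tsum_eq
    rw [← this]
    apply tsum_congr
    intro n
    rw [inv_pow, one_div]
  have h4 : Real.pi ^ 2 / 6 ≤ 2 := by
    have := Real.pi_lt_d2
    have h0 := Real.pi_pos
    nlinarith
  linarith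

/-- `∑_{n ≤ N} z ^ Ω(n) / n ≪ (log N) ^ z` -/
theorem W_le : ∃ C : ℝ, 1 ≤ C ∧ ∀ z : ℝ, 0 ≤ z → z ≤ 1 → ∀ N : ℕ, 3 ≤ N →
    W z N ≤ C * Real.log N ^ z := by
  obtain ⟨C, hC⟩ := Pool.Agent.Erdos456.Mert.mertens_inv
  have hC0 : 0 ≤ C := (abs_nonneg _).trans (hC 3 le_rfl)
  refine ⟨Real.exp (C + 4), Real.one_le_exp (by linarith), ?_⟩
  intro z hz hz1 N hN
  refine (W_le_prod hz hz1 N).trans ?_
  have hL : 1 < Real.log N := by
    have h1 : Real.exp 1 < 3 := lt_trans Real.exp_one_lt_d9 (by norm_num)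
    rw [Real.lt_log_iff_exp_lt (by positivity)]
    exact lt_of_lt_of_le h1 (by exact_mod_cast hN)
  have h1 : ∏ p ∈ Nat.primesBelow (N + 1), (1 - z / (p : ℝ))⁻¹ ≤
      ∏ p ∈ Nat.primesBelow (N + 1), Real.exp (z * (1 / (p : ℝ)) + 2 * ((p : ℝ)⁻¹) ^ 2) := by
    apply Finset.prod_le_prod
    · intro p hp
      have h2 : (2:ℝ) ≤ p := by exact_mod_cast (Nat.prime_of_mem_primesBelow hp).two_le
      rw [inv_nonneg, sub_nonneg, div_le_one (by positivity)]
      linarith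
    · intro p hp
      have h2 : (2:ℝ) ≤ p := by exact_mod_cast (Nat.prime_of_mem_primesBelow hp).two_le
      obtain ⟨x, hx⟩ : ∃ x, x = (p : ℝ)⁻¹ := ⟨_, rfl⟩
      have hx0 : 0 < x := by rw [hx]; positivity
      have hx1 : x ≤ 1/2 := by rw [hx, one_div]; exact inv_anti₀ (by norm_num) h2
      have h3 : z / (p : ℝ) = z * x := by rw [hx]; rfl
      rw [h3, one_div, ← hx]
      have ht0 : 0 ≤ z * x := by positivity
      have ht1 : z * x ≤ x := by nlinarith
      have ht : z * x ≤ 1 / 2 := by linarith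
      have h4 : (1 - z * x)⁻¹ ≤ 1 + (z * x + 2 * x ^ 2) := by
        rw [inv_le_comm₀ (by linarith) (by positivity), inv_le_iff_one_le_mul₀ (by positivity)]
        nlinarith [mul_nonneg ht0 ht0, mul_nonneg ht0 hx0.le, sq_nonneg (z * x),
          mul_nonneg (sub_nonneg.2 ht1) (sub_nonneg.2 hx1), mul_nonneg hx0.le (sub_nonneg.2 ht1),
          mul_nonneg (mul_nonneg hx0.le hx0.le) (sub_nonneg.2 ht)]
      refine h4.trans ?_
      have := Real.add_one_le_exp (z * x + 2 * x ^ 2)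
      linarith
  refine h1.trans ?_
  rw [← Real.exp_sum, Finset.sum_add_distrib, ← Finset.mul_sum, ← Finset.mul_sum]
  have h2 : ∑ p ∈ Nat.primesBelow (N + 1), (1 : ℝ) / p ≤ Real.log (Real.log N) + C := by
    have h3 := (abs_le.1 (hC N hN)).2
    have h4 : (Finset.Icc 1 N).filter Nat.Prime = Nat.primesBelow (N + 1) := by
      ext p
      rw [mem_filter, mem_Icc, Nat.mem_primesBelow]
      constructor
      · rintro ⟨h, hp⟩; exact ⟨by omega, hp⟩
      · rintro ⟨h, hp⟩; exact ⟨⟨hp.one_lt.le, by omega⟩, hp⟩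
    rw [h4] at h3
    linarith
  have h3 := sum_inv_sq_le (Nat.primesBelow (N + 1))
  have h5 : Real.log N ^ z = Real.exp (z * Real.log (Real.log N)) := by
    rw [Real.rpow_def_of_pos (by linarith), mul_comm]
  rw [h5, ← Real.exp_add]
  apply Real.exp_le_exp.2
  nlinarith [mul_le_mul_of_nonneg_left h2 hz, mul_nonneg hz hC0]

end Pool.Agent.U843.ME
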