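import Pool.Agent.U843.ME.S1

set_option autoImplicit false

open Finset ArithmeticFunction

namespace Pool.Agent.U843.ME

theorem Icc_one_eq (N : ℕ) : Icc 1 N = Ioc 0 N := by
  ext n; rw [mem_Icc, mem_Ioc]; omega

/-- `2 ^ (-Ω)` as an arithmetic function -/
noncomputable def U : ArithmeticFunction ℝ :=
  ⟨fun n => if n = 0 then 0 else (1 / 2 : ℝ) ^ (cardFactors n), by simp⟩

theorem U_apply {n : ℕ} (hn : n ≠ 0) : U n = (1 / 2 : ℝ) ^ (cardFactors n) := by
  show (if n = 0 then 0 else (1 / 2 : ℝ) ^ (cardFactors n)) = _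
  rw [if_neg hn]

/-- `∑_{n ≤ N} 2 ^ (-Ω(n))` -/
noncomputable def F (N : ℕ) : ℝ := ∑ n ∈ Icc 1 N, (1 / 2 : ℝ) ^ (cardFactors n)

theorem F_nonneg (N : ℕ) : 0 ≤ F N := sum_nonneg fun n _ => by positivity

theorem log_mul_F_le (N : ℕ) (hN : 1 ≤ N) :
    Real.log N * F N ≤ (Real.log 4 + 5) * N * W (1 / 2) N := by
  have hN0 : (0 : ℝ) < N := by exact_mod_cast hN
  have h1 : Real.log N * F N ≤ ∑ n ∈ Icc 1 N, ((1 / 2 : ℝ) ^ (cardFactors n) * (N / n) +
      (1 / 2 : ℝ) ^ (cardFactors n) * Real.log n) := by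
    unfold F
    rw [Finset.mul_sum]
    apply Finset.sum_le_sum
    intro n hn
    rw [mem_Icc] at hn
    have hn0 : (0 : ℝ) < n := by exact_mod_cast hn.1
    have h2 : Real.log N ≤ N / n + Real.log n := by
      have h3 : Real.log N = Real.log (N / n) + Real.log n := by
        rw [Real.log_div hN0.ne' hn0.ne']; ring
      have h4 : Real.log ((N : ℝ) / n) ≤ N / n := by
        have := Real.log_le_sub_one_of_pos (show (0 : ℝ) < N / n by positivity)
        linarith
      linarith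
    have h5 : (0 : ℝ) ≤ (1 / 2 : ℝ) ^ (cardFactors n) := by positivity
    nlinarith
  rw [Finset.sum_add_distrib] at h1
  have h2 : ∑ n ∈ Icc 1 N, (1 / 2 : ℝ) ^ (cardFactors n) * ((N : ℝ) / n) = N * W (1 / 2) N := by
    unfold W
    rw [Finset.mul_sum]
    apply Finset.sum_congr rfl
    intro n _
    ring
  have h3 : ∑ n ∈ Icc 1 N, (1 / 2 : ℝ) ^ (cardFactors n) * Real.log n ≤
      ∑ n ∈ Ioc 0 N, (U * vonMangoldt) n := by
    rw [Icc_one_eq]
    apply Finset.sum_le_sum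
    intro n hn
    rw [mem_Ioc] at hn
    rw [ArithmeticFunction.mul_apply, ← vonMangoldt_sum, Finset.mul_sum,
      ← Nat.sum_divisorsAntidiagonal' (f := fun _ i => (1 / 2 : ℝ) ^ (cardFactors n) * vonMangoldt i)]
    apply Finset.sum_le_sum
    rintro ⟨a, b⟩ hab
    rw [Nat.mem_divisorsAntidiagonal] at hab
    have ha : a ≠ 0 := by rintro rfl; simp at hab; omega
    have hb : b ≠ 0 := by rintro rfl; simp at hab; omega
    show (1 / 2 : ℝ) ^ (cardFactors n) * vonMangoldt b ≤ U a * vonMangoldt b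
    apply mul_le_mul_of_nonneg_right _ vonMangoldt_nonneg
    rw [U_apply ha]
    apply pow_le_pow_of_le_one (by norm_num) (by norm_num)
    rw [← hab.1]
    show cardFactors a ≤ cardFactors (a * b)
    rw [cardFactors_mul ha hb]
    omega
  have h4 : ∑ n ∈ Ioc 0 N, (U * vonMangoldt) n ≤ (Real.log 4 + 4) * N * W (1 / 2) N := by
    rw [sum_Ioc_mul_eq_sum_sum]
    unfold W
    rw [Finset.mul_sum, Icc_one_eq]
    apply Finset.sum_le_sum
    intro n hn
    rw [mem_Ioc] at hn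
    have hn0 : (0 : ℝ) < n := by exact_mod_cast hn.1
    rw [U_apply (by omega)]
    have h5 : ∑ m ∈ Ioc 0 (N / n), vonMangoldt m = Chebyshev.psi ((N / n : ℕ) : ℝ) := by
      unfold Chebyshev.psi
      rw [Nat.floor_natCast]
    have h6 := Chebyshev.psi_le_const_mul_self (x := ((N / n : ℕ) : ℝ)) (by positivity)
    have h7 : ((N / n : ℕ) : ℝ) ≤ N / n := Nat.cast_div_le
    have h8 : (0 : ℝ) ≤ Real.log 4 + 4 := by have := Real.log_nonneg (show (1 : ℝ) ≤ 4 by norm_num); linarith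
    rw [h5]
    have h9 : Chebyshev.psi ((N / n : ℕ) : ℝ) ≤ (Real.log 4 + 4) * (N / n) :=
      h6.trans (mul_le_mul_of_nonneg_left h7 h8)
    calc (1 / 2 : ℝ) ^ (cardFactors n) * Chebyshev.psi ((N / n : ℕ) : ℝ)
        ≤ (1 / 2 : ℝ) ^ (cardFactors n) * ((Real.log 4 + 4) * (N / n)) :=
          mul_le_mul_of_nonneg_left h9 (by positivity)
      _ = (Real.log 4 + 4) * N * ((1 / 2 : ℝ) ^ (cardFactors n) / n) := by ring
  rw [h2] at h1
  nlinarith [h1, h3, h4]

theorem log_gt_one {N : ℕ} (hN : 3 ≤ N) : 1 < Real.log N := by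
  have h1 : Real.exp 1 < 3 := lt_trans Real.exp_one_lt_d9 (by norm_num)
  have h2 : (3 : ℝ) ≤ N := by exact_mod_cast hN
  rw [Real.lt_log_iff_exp_lt (by positivity)]
  linarith

/-- `∑_{n ≤ N} 2 ^ (-Ω(n)) ≪ N / sqrt (log N)` -/
theorem F_le : ∃ C : ℝ, 0 < C ∧ ∀ N : ℕ, 3 ≤ N → F N ≤ C * N / Real.sqrt (Real.log N) := by
  obtain ⟨C, hC, h⟩ := W_le
  have h4 : (0 : ℝ) < Real.log 4 + 5 := by
    have := Real.log_nonneg (show (1 : ℝ) ≤ 4 by norm_num); linarith
  refine ⟨(Real.log 4 + 5) * C, by positivity, fun N hN => ?_⟩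
  have hL := log_gt_one hN
  have hs : 0 < Real.sqrt (Real.log N) := Real.sqrt_pos.2 (by linarith)
  have h1 := log_mul_F_le N (by omega)
  have h2 := h (1 / 2) (by norm_num) (by norm_num) N hN
  rw [← Real.sqrt_eq_rpow] at h2
  rw [le_div_iff₀ hs]
  have h3 : Real.sqrt (Real.log N) * Real.sqrt (Real.log N) = Real.log N :=
    Real.mul_self_sqrt (by linarith)
  have h5 : Real.log N * F N ≤ (Real.log 4 + 5) * N * (C * Real.sqrt (Real.log N)) :=
    h1.trans (mul_le_mul_of_nonneg_left h2 (by positivity))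
  have h6 : Real.sqrt (Real.log N) * (F N * Real.sqrt (Real.log N)) ≤
      Real.sqrt (Real.log N) * ((Real.log 4 + 5) * C * N) := by
    calc Real.sqrt (Real.log N) * (F N * Real.sqrt (Real.log N))
        = Real.sqrt (Real.log N) * Real.sqrt (Real.log N) * F N := by ring
      _ = Real.log N * F N := by rw [h3]
      _ ≤ (Real.log 4 + 5) * N * (C * Real.sqrt (Real.log N)) := h5
      _ = _ := by ring
  exact le_of_mul_le_mul_left h6 hs

end Pool.Agent.U843.ME
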