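import Pool.Agent.U843.ME.S2

set_option autoImplicit false

open Finset ArithmeticFunction

namespace Pool.Agent.U843.ME

theorem card_divisors_sqfree {n : ℕ} (hn : Squarefree n) : n.divisors.card = 2 ^ cardFactors n := by
  have h0 : n ≠ 0 := hn.ne_zero
  rw [Nat.card_divisors h0, ← (cardDistinctFactors_eq_cardFactors_iff_squarefree h0).2 hn,
    cardDistinctFactors_apply]
  have : ∀ x ∈ n.primeFactors, n.factorization x + 1 = 2 := by
    intro x hx
    have h1 := (Nat.squarefree_iff_factorization_le_one h0).1 hn x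
    have h2 := (Nat.prime_of_mem_primeFactors hx).factorization_pos_of_dvd h0
      (Nat.dvd_of_mem_primeFactors hx)
    omega
  rw [Finset.prod_congr rfl this, Finset.prod_const]
  congr 1

/-- `2 ^ (-Ω(n)) / n` as an arithmetic function -/
noncomputable def V : ArithmeticFunction ℝ :=
  ⟨fun n => if n = 0 then 0 else (1 / 2 : ℝ) ^ (cardFactors n) / n, by simp⟩

theorem V_apply {n : ℕ} (hn : n ≠ 0) : V n = (1 / 2 : ℝ) ^ (cardFactors n) / n := by
  show (if n = 0 then 0 else (1 / 2 : ℝ) ^ (cardFactors n) / n) = _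
  rw [if_neg hn]

theorem V_nonneg (n : ℕ) : 0 ≤ V n := by
  rcases eq_or_ne n 0 with rfl | h
  · simp
  · rw [V_apply h]; positivity

theorem sum_V (M : ℕ) : ∑ n ∈ Ioc 0 M, V n = W (1 / 2) M := by
  unfold W
  rw [Icc_one_eq]
  apply Finset.sum_congr rfl
  intro n hn
  rw [mem_Ioc] at hn
  rw [V_apply (by omega)]

theorem VV_sqfree {n : ℕ} (hn : Squarefree n) : (V * V) n = 1 / n := by
  have h0 : n ≠ 0 := hn.ne_zero
  have h0' : (n : ℝ) ≠ 0 := by exact_mod_cast h0
  rw [ArithmeticFunction.mul_apply]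
  have h1 : ∀ x ∈ n.divisorsAntidiagonal, V x.1 * V x.2 = (1 / 2 : ℝ) ^ (cardFactors n) / n := by
    rintro ⟨a, b⟩ hab
    rw [Nat.mem_divisorsAntidiagonal] at hab
    have ha : a ≠ 0 := by rintro rfl; simp at hab; omega
    have hb : b ≠ 0 := by rintro rfl; simp at hab; omega
    show V a * V b = _
    rw [V_apply ha, V_apply hb, ← hab.1]
    show _ = (1 / 2 : ℝ) ^ (cardFactors (a * b)) / ((a * b : ℕ) : ℝ)
    rw [cardFactors_mul ha hb, pow_add]
    push_cast
    field_simp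
  rw [Finset.sum_congr rfl h1, Finset.sum_const]
  have h2 : n.divisorsAntidiagonal.card = n.divisors.card := by
    rw [← Nat.map_div_right_divisors, Finset.card_map]
  rw [h2, card_divisors_sqfree hn, nsmul_eq_mul]
  push_cast
  rw [one_div, inv_pow]
  field_simp

theorem sum_sqfree_le (M : ℕ) :
    ∑ n ∈ (Icc 1 M).filter Squarefree, (1 : ℝ) / n ≤ W (1 / 2) M ^ 2 := by
  have h1 : ∑ n ∈ (Icc 1 M).filter Squarefree, (1 : ℝ) / n ≤ ∑ n ∈ Ioc 0 M, (V * V) n := by
    rw [← Icc_one_eq, Finset.sum_filter]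
    apply Finset.sum_le_sum
    intro n _
    split_ifs with h
    · rw [VV_sqfree h]
    · rw [ArithmeticFunction.mul_apply]
      exact Finset.sum_nonneg fun x _ => mul_nonneg (V_nonneg _) (V_nonneg _)
  refine h1.trans ?_
  rw [sum_Ioc_mul_eq_sum_prod_filter, sq, ← sum_V, Finset.sum_mul_sum, ← Finset.sum_product']
  exact Finset.sum_le_sum_of_subset_of_nonneg (filter_subset _ _)
    fun x _ _ => mul_nonneg (V_nonneg _) (V_nonneg _)

theorem sum_inv_le (M : ℕ) : ∑ n ∈ Icc 1 M, (1 : ℝ) / n ≤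
    (∑ n ∈ (Icc 1 M).filter Squarefree, (1 : ℝ) / n) * 2 := by
  choose a b hab hsq using Nat.sq_mul_squarefree
  have h1 : ∑ n ∈ Icc 1 M, (1 : ℝ) / n =
      ∑ x ∈ (Icc 1 M).image (fun n => (a n, b n)), (1 : ℝ) / x.1 * ((x.2 : ℝ)⁻¹) ^ 2 := by
    rw [Finset.sum_image]
    · apply Finset.sum_congr rfl
      intro n _
      have h2 : (n : ℝ) = b n ^ 2 * a n := by exact_mod_cast (hab n).symm
      show (1 : ℝ) / n = 1 / (a n) * ((b n : ℝ)⁻¹) ^ 2
      rw [h2, one_div, one_div, mul_inv, inv_pow, mul_comm]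
    · intro x _ y _ hxy
      simp only [Prod.mk.injEq] at hxy
      rw [← hab x, ← hab y, hxy.1, hxy.2]
  rw [h1]
  have h2 : (Icc 1 M).image (fun n => (a n, b n)) ⊆ ((Icc 1 M).filter Squarefree) ×ˢ (Icc 1 M) := by
    intro x hx
    rw [mem_image] at hx
    obtain ⟨n, hn, rfl⟩ := hx
    rw [mem_Icc] at hn
    have hn0 : n ≠ 0 := by omega
    have ha0 : a n ≠ 0 := (hsq n).ne_zero
    have hb0 : b n ≠ 0 := by
      intro h
      have := hab n
      rw [h] at this
      simp at this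
      omega
    rw [mem_product, mem_filter, mem_Icc, mem_Icc]
    have h3 : a n ≤ n := by
      apply Nat.le_of_dvd (by omega)
      exact ⟨b n ^ 2, by rw [mul_comm]; exact (hab n).symm⟩
    have h4 : b n ≤ n := by
      apply Nat.le_of_dvd (by omega)
      exact ⟨b n * a n, by rw [← mul_assoc, ← sq]; exact (hab n).symm⟩
    exact ⟨⟨⟨by show 1 ≤ a n; omega, h3.trans hn.2⟩, hsq n⟩, by show 1 ≤ b n; omega, h4.trans hn.2⟩
  refine (Finset.sum_le_sum_of_subset_of_nonneg h2 fun x _ _ => by positivity).trans ?_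
  rw [Finset.sum_product, Finset.sum_mul]
  apply Finset.sum_le_sum
  intro s _
  show ∑ x ∈ Icc 1 M, (1 : ℝ) / s * ((x : ℝ)⁻¹) ^ 2 ≤ 1 / s * 2
  rw [← Finset.mul_sum]
  exact mul_le_mul_of_nonneg_left (sum_inv_sq_le _) (by positivity)

theorem log_le_sum (M : ℕ) : Real.log M ≤ ∑ n ∈ Icc 1 M, (1 : ℝ) / n := by
  have h1 := log_add_one_le_harmonic M
  have h2 : ((harmonic M : ℚ) : ℝ) = ∑ n ∈ Icc 1 M, (1 : ℝ) / n := by
    rw [harmonic_eq_sum_Icc]
    push_cast
    apply Finset.sum_congr rfl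
    intro n _
    rw [one_div]
  rw [h2] at h1
  rcases Nat.eq_zero_or_pos M with rfl | hM
  · simp
  refine le_trans (Real.log_le_log (by exact_mod_cast hM) ?_) h1
  push_cast
  linarith

/-- `∑_{n ≤ M} 2 ^ (-Ω(n)) / n ≫ sqrt (log M)` -/
theorem W_ge (M : ℕ) : 1 / 2 * Real.sqrt (Real.log M) ≤ W (1 / 2) M := by
  have h1 := sum_sqfree_le M
  have h2 := sum_inv_le M
  have h3 := log_le_sum M
  have h0 : 0 ≤ W (1 / 2) M := W_nonneg (by norm_num) M
  rcases le_or_gt (Real.log M) 0 with h | h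
  · rw [Real.sqrt_eq_zero_of_nonpos h]; simpa using h0
  apply le_of_sq_le_sq _ h0
  rw [mul_pow, Real.sq_sqrt h.le]
  linarith

end Pool.Agent.U843.ME
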