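import Pool.Agent.U843.ME.S3

set_option autoImplicit false

open Finset ArithmeticFunction

namespace Pool.Agent.U843.ME

/-- the weight `2 ^ (-Ω(n)) / n` -/
noncomputable def v (n : ℕ) : ℝ := (1 / 2 : ℝ) ^ (cardFactors n) / n

theorem v_nonneg (n : ℕ) : 0 ≤ v n := by unfold v; positivity

theorem W_le' : ∃ C : ℝ, 1 ≤ C ∧ ∀ M : ℕ, 1 ≤ M → W (1 / 2) M ≤ C * Real.sqrt (Real.log (4 * M)) := by
  obtain ⟨C, hC, h⟩ := W_le
  refine ⟨C, hC, fun M hM => ?_⟩
  have h1 := h (1 / 2) (by norm_num) (by norm_num) (max M 3) (le_max_right _ _)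
  rw [← Real.sqrt_eq_rpow] at h1
  refine (W_mono (by norm_num) (le_max_left M 3)).trans (h1.trans ?_)
  apply mul_le_mul_of_nonneg_left _ (by linarith)
  apply Real.sqrt_le_sqrt
  have h3 : max M 3 ≤ 4 * M := by omega
  apply Real.log_le_log
  · have : 0 < max M 3 := by omega
    exact_mod_cast this
  · exact_mod_cast h3

/-- `∑_{x ≤ M} v(x) / sqrt (log (4 x))` -/
noncomputable def R (M : ℕ) : ℝ := ∑ x ∈ Icc 1 M, v x / Real.sqrt (Real.log (4 * x))

theorem log4_gt_one : 1 < Real.log 4 := by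
  have := log_gt_one (N := 4) (by norm_num)
  exact_mod_cast this

theorem log4x {x : ℕ} (hx : 1 ≤ x) : 1 < Real.log (4 * x) := by
  have h1 : (1 : ℝ) ≤ x := by exact_mod_cast hx
  exact lt_of_lt_of_le log4_gt_one (Real.log_le_log (by norm_num) (by linarith))

theorem R_le_aux {C : ℝ} (hC : 1 ≤ C)
    (h : ∀ M : ℕ, 1 ≤ M → W (1 / 2) M ≤ C * Real.sqrt (Real.log (4 * M))) (M : ℕ) :
    R M ≤ W (1 / 2) M / Real.sqrt (Real.log (4 * ((M + 1 : ℕ) : ℝ))) +
      C * (Real.log (Real.sqrt (Real.log (4 * ((M + 1 : ℕ) : ℝ)))) -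
        Real.log (Real.sqrt (Real.log (4 * ((1 : ℕ) : ℝ))))) := by
  induction M with
  | zero => simp [R, W]
  | succ M ih =>
    have h1 : R (M + 1) = R M + v (M + 1) / Real.sqrt (Real.log (4 * ((M + 1 : ℕ) : ℝ))) := by
      unfold R
      rw [Finset.sum_Icc_succ_top (by omega)]
    have h2 : W (1 / 2) (M + 1) = W (1 / 2) M + v (M + 1) := by
      unfold W
      rw [Finset.sum_Icc_succ_top (by omega)]
      rfl
    have h3 := h (M + 1) (by omega)
    have h4 := log4x (x := M + 1) (by omega)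
    have h5 := log4x (x := M + 1 + 1) (by omega)
    obtain ⟨s, hs⟩ : ∃ s, s = Real.sqrt (Real.log (4 * ((M + 1 : ℕ) : ℝ))) := ⟨_, rfl⟩
    obtain ⟨t, ht⟩ : ∃ t, t = Real.sqrt (Real.log (4 * ((M + 1 + 1 : ℕ) : ℝ))) := ⟨_, rfl⟩
    have hs0 : 0 < s := by rw [hs]; exact Real.sqrt_pos.2 (by linarith)
    have ht0 : 0 < t := by rw [ht]; exact Real.sqrt_pos.2 (by linarith)
    have hst : s ≤ t := by
      rw [hs, ht]
      apply Real.sqrt_le_sqrt
      apply Real.log_le_log
      · positivity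
      · push_cast; linarith
    rw [← hs] at ih h1 h3
    rw [h1, ← ht]
    have h6 : W (1 / 2) (M + 1) / s - W (1 / 2) (M + 1) / t ≤ C * (Real.log t - Real.log s) := by
      have h7 : W (1 / 2) (M + 1) / s - W (1 / 2) (M + 1) / t = W (1 / 2) (M + 1) * (1 / s - 1 / t) := by
        ring
      have h8 : 0 ≤ 1 / s - 1 / t := sub_nonneg.2 (one_div_le_one_div_of_le hs0 hst)
      rw [h7]
      refine (mul_le_mul_of_nonneg_right h3 h8).trans ?_
      rw [mul_assoc]
      apply mul_le_mul_of_nonneg_left _ (by linarith)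
      have h9 : s * (1 / s - 1 / t) = 1 - s / t := by field_simp
      rw [h9]
      have h10 := Real.log_le_sub_one_of_pos (show 0 < s / t by positivity)
      rw [Real.log_div hs0.ne' ht0.ne'] at h10
      linarith
    have h11 : (W (1 / 2) M + v (M + 1)) / s = W (1 / 2) M / s + v (M + 1) / s := add_div _ _ _
    rw [h2] at h6 ⊢
    rw [h11] at h6
    have h12 : C * (Real.log s - Real.log (Real.sqrt (Real.log (4 * ((1 : ℕ) : ℝ))))) +
        C * (Real.log t - Real.log s) =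
        C * (Real.log t - Real.log (Real.sqrt (Real.log (4 * ((1 : ℕ) : ℝ))))) := by ring
    linarith

theorem R_le : ∃ C : ℝ, 1 ≤ C ∧ ∀ M : ℕ, 1 ≤ M →
    R M ≤ C * (1 + Real.log (Real.log (4 * ((M + 1 : ℕ) : ℝ)))) := by
  obtain ⟨C, hC, h⟩ := W_le'
  refine ⟨C, hC, fun M hM => ?_⟩
  refine (R_le_aux hC h M).trans ?_
  have h3 := h M hM
  have h4 := log4x (x := M) hM
  have h5 := log4x (x := M + 1) (by omega)
  have h6 := log4x (x := 1) (by omega)
  have hs0 : 0 < Real.sqrt (Real.log (4 * M)) := Real.sqrt_pos.2 (by linarith)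
  have hst : Real.sqrt (Real.log (4 * M)) ≤ Real.sqrt (Real.log (4 * ((M + 1 : ℕ) : ℝ))) := by
    apply Real.sqrt_le_sqrt
    apply Real.log_le_log
    · have : (1 : ℝ) ≤ M := by exact_mod_cast hM
      linarith
    · push_cast; linarith
  have h7 : W (1 / 2) M / Real.sqrt (Real.log (4 * ((M + 1 : ℕ) : ℝ))) ≤ C := by
    rw [div_le_iff₀ (lt_of_lt_of_le hs0 hst)]
    exact h3.trans (mul_le_mul_of_nonneg_left hst (by linarith))
  rw [Real.log_sqrt (by linarith), Real.log_sqrt (by linarith)]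
  have h8 : 0 ≤ Real.log (Real.log (4 * ((1 : ℕ) : ℝ))) := Real.log_nonneg h6.le
  have h9 : 0 ≤ Real.log (Real.log (4 * ((M + 1 : ℕ) : ℝ))) := Real.log_nonneg h5.le
  generalize Real.log (Real.log (4 * ((M + 1 : ℕ) : ℝ))) = a at h9 ⊢
  generalize Real.log (Real.log (4 * ((1 : ℕ) : ℝ))) = b at h8 ⊢
  have h10 : C * (a / 2 - b / 2) ≤ C * a := mul_le_mul_of_nonneg_left (by linarith) (by linarith)
  linarith

/-- comparable integers -/
def Cmp (x y : ℕ) : Prop := x < 4 * y ∧ y < 4 * x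

instance (x y : ℕ) : Decidable (Cmp x y) := by unfold Cmp; infer_instance

/-- the sum of `v(x) v(y)` over comparable pairs is `≪ log log M` -/
theorem Q_le : ∃ C : ℝ, 1 ≤ C ∧ ∀ M : ℕ, 1 ≤ M →
    ∑ q ∈ ((Icc 1 M) ×ˢ (Icc 1 M)).filter (fun q => Cmp q.1 q.2), v q.1 * v q.2 ≤
      C * (1 + Real.log (Real.log (4 * ((M + 1 : ℕ) : ℝ)))) := by
  obtain ⟨C, hC, h⟩ := R_le
  obtain ⟨D, hD, hF⟩ := F_le
  have hCD : 0 ≤ 16 * D * C := by positivity
  refine ⟨16 * D * C + 1, by linarith, fun M hM => ?_⟩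
  have h9 : 0 ≤ Real.log (Real.log (4 * ((M + 1 : ℕ) : ℝ))) :=
    Real.log_nonneg (log4x (x := M + 1) (by omega)).le
  have h1 : ∑ q ∈ ((Icc 1 M) ×ˢ (Icc 1 M)).filter (fun q => Cmp q.1 q.2), v q.1 * v q.2 ≤
      16 * D * R M := by
    rw [Finset.sum_filter, Finset.sum_product]
    unfold R
    rw [Finset.mul_sum]
    apply Finset.sum_le_sum
    intro x hx
    rw [mem_Icc] at hx
    have hx0 : (0 : ℝ) < x := by exact_mod_cast hx.1
    have h2 : ∑ y ∈ Icc 1 M, (if Cmp x y then v x * v y else 0) ≤ v x * (4 / x * F (4 * x)) := by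
      have h3 : ∑ y ∈ Icc 1 M, (if Cmp x y then v x * v y else 0) ≤
          ∑ y ∈ (Icc 1 M).filter (fun y => Cmp x y), v x * (4 / x * (1 / 2 : ℝ) ^ (cardFactors y)) := by
        rw [← Finset.sum_filter]
        apply Finset.sum_le_sum
        intro y hy
        rw [mem_filter, mem_Icc] at hy
        apply mul_le_mul_of_nonneg_left _ (v_nonneg x)
        unfold v
        have hy0 : (0 : ℝ) < y := by exact_mod_cast hy.1.1
        have h4 : (x : ℝ) < 4 * y := by exact_mod_cast hy.2.1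
        have h5 : 1 / (y : ℝ) ≤ 4 / x := by
          rw [div_le_div_iff₀ hy0 hx0]; linarith
        have h6 : (0 : ℝ) ≤ (1 / 2 : ℝ) ^ (cardFactors y) := by positivity
        calc (1 / 2 : ℝ) ^ (cardFactors y) / y = (1 / y) * (1 / 2 : ℝ) ^ (cardFactors y) := by ring
          _ ≤ _ := mul_le_mul_of_nonneg_right h5 h6
      refine h3.trans ?_
      rw [← Finset.mul_sum, ← Finset.mul_sum]
      apply mul_le_mul_of_nonneg_left _ (v_nonneg x)
      apply mul_le_mul_of_nonneg_left _ (by positivity)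
      unfold F
      apply Finset.sum_le_sum_of_subset_of_nonneg
      · intro y hy
        rw [mem_filter, mem_Icc] at hy
        rw [mem_Icc]
        exact ⟨hy.1.1, hy.2.2.le⟩
      · intro y _ _; positivity
    refine h2.trans ?_
    have h3 := hF (4 * x) (by omega)
    push_cast at h3
    have h4 : 4 / (x : ℝ) * F (4 * x) ≤ 16 * D / Real.sqrt (Real.log (4 * x)) := by
      calc 4 / (x : ℝ) * F (4 * x) ≤ 4 / x * (D * (4 * x) / Real.sqrt (Real.log (4 * x))) :=
            mul_le_mul_of_nonneg_left h3 (by positivity)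
        _ = 16 * D / Real.sqrt (Real.log (4 * x)) := by field_simp; ring
    calc v x * (4 / x * F (4 * x)) ≤ v x * (16 * D / Real.sqrt (Real.log (4 * x))) :=
          mul_le_mul_of_nonneg_left h4 (v_nonneg x)
      _ = _ := by ring
  refine h1.trans ?_
  have h2 := h M hM
  calc 16 * D * R M ≤ 16 * D * (C * (1 + Real.log (Real.log (4 * ((M + 1 : ℕ) : ℝ))))) :=
        mul_le_mul_of_nonneg_left h2 (by positivity)
    _ ≤ _ := by nlinarith

end Pool.Agent.U843.ME
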