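import Pool.Agent.U843.ME.S4

set_option autoImplicit false

open Finset ArithmeticFunction

namespace Pool.Agent.U843.ME

/-- gcd sums over sets of integers with at most `k` prime factors -/
theorem gcd_sum_le (A : Finset ℕ) (M k : ℕ) (hA : ∀ m ∈ A, 1 ≤ m ∧ m ≤ M ∧ cardFactors m ≤ k)
    (P : ℕ → ℕ → Prop) [∀ x y, Decidable (P x y)]
    (hP : ∀ g x y : ℕ, 0 < g → P (g * x) (g * y) → P x y) :
    ∑ q ∈ (A ×ˢ A).filter (fun q => P q.1 q.2), (Nat.gcd q.1 q.2 : ℝ) / (q.1 * q.2) ≤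
      4 ^ k * (W (1 / 4) M *
        ∑ q ∈ ((Icc 1 M) ×ˢ (Icc 1 M)).filter (fun q => P q.1 q.2), v q.1 * v q.2) := by
  let i : ℕ × ℕ → ℕ × ℕ × ℕ := fun q => (Nat.gcd q.1 q.2, q.1 / Nat.gcd q.1 q.2, q.2 / Nat.gcd q.1 q.2)
  let f : ℕ × ℕ × ℕ → ℝ := fun t => 4 ^ k * ((1 / 4 : ℝ) ^ cardFactors t.1 / t.1 * (v t.2.1 * v t.2.2))
  have hf : ∀ t, 0 ≤ f t := fun t => by
    have := v_nonneg t.2.1
    have := v_nonneg t.2.2
    show 0 ≤ 4 ^ k * ((1 / 4 : ℝ) ^ cardFactors t.1 / t.1 * (v t.2.1 * v t.2.2))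
    positivity
  have hmul : ∀ q : ℕ × ℕ, Nat.gcd q.1 q.2 * (q.1 / Nat.gcd q.1 q.2) = q.1 ∧
      Nat.gcd q.1 q.2 * (q.2 / Nat.gcd q.1 q.2) = q.2 := fun q =>
    ⟨Nat.mul_div_cancel' (Nat.gcd_dvd_left _ _), Nat.mul_div_cancel' (Nat.gcd_dvd_right _ _)⟩
  have hinj : Function.Injective i := by
    intro q r h
    simp only [i, Prod.mk.injEq] at h
    obtain ⟨h1, h2, h3⟩ := h
    apply Prod.ext
    · rw [← (hmul q).1, ← (hmul r).1, h1, ← h2, h1]
    · rw [← (hmul q).2, ← (hmul r).2, h1, ← h3, h1]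
  have h1 : ∑ q ∈ (A ×ˢ A).filter (fun q => P q.1 q.2), (Nat.gcd q.1 q.2 : ℝ) / (q.1 * q.2) ≤
      ∑ q ∈ (A ×ˢ A).filter (fun q => P q.1 q.2), f (i q) := by
    apply Finset.sum_le_sum
    rintro ⟨m, n⟩ hq
    rw [mem_filter, mem_product] at hq
    obtain ⟨⟨hm, hn⟩, -⟩ := hq
    have hm' := hA m hm
    have hn' := hA n hn
    obtain ⟨g, hg⟩ : ∃ g, g = Nat.gcd m n := ⟨_, rfl⟩
    obtain ⟨x, hx⟩ : ∃ x, x = m / g := ⟨_, rfl⟩
    obtain ⟨y, hy⟩ : ∃ y, y = n / g := ⟨_, rfl⟩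
    have hgx : g * x = m := by rw [hx, hg]; exact (hmul (m, n)).1
    have hgy : g * y = n := by rw [hy, hg]; exact (hmul (m, n)).2
    have hg0 : g ≠ 0 := by rintro h0; rw [h0] at hgx; simp at hgx; omega
    have hx0 : x ≠ 0 := by rintro h0; rw [h0] at hgx; simp at hgx; omega
    have hy0 : y ≠ 0 := by rintro h0; rw [h0] at hgy; simp at hgy; omega
    have hfi : f (i (m, n)) = 4 ^ k * ((1 / 4 : ℝ) ^ cardFactors g / g * (v x * v y)) := by
      simp only [f, i]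
      rw [← hg, ← hx, ← hy]
    rw [hfi]
    show ((Nat.gcd m n : ℕ) : ℝ) / ((m : ℝ) * n) ≤ _
    rw [← hg]
    have hg1 : (0 : ℝ) < g := by exact_mod_cast Nat.pos_of_ne_zero hg0
    have hx1 : (0 : ℝ) < x := by exact_mod_cast Nat.pos_of_ne_zero hx0
    have hy1 : (0 : ℝ) < y := by exact_mod_cast Nat.pos_of_ne_zero hy0
    have h2 : (g : ℝ) / ((m : ℝ) * n) = 1 / (g * x * y) := by
      rw [← hgx, ← hgy]; push_cast; field_simp
    rw [h2]
    have h3 : cardFactors g + cardFactors x ≤ k := by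
      have := hm'.2.2; rw [← hgx, cardFactors_mul hg0 hx0] at this; exact this
    have h4 : cardFactors g + cardFactors y ≤ k := by
      have := hn'.2.2; rw [← hgy, cardFactors_mul hg0 hy0] at this; exact this
    have h5 : (1 : ℝ) ≤ 4 ^ k * ((1 / 4 : ℝ) ^ cardFactors g * (1 / 2) ^ cardFactors x *
        (1 / 2) ^ cardFactors y) := by
      have h6 : (4 : ℝ) ^ k = 2 ^ k * 2 ^ k := by rw [← mul_pow]; norm_num
      have h7 : (1 / 4 : ℝ) ^ cardFactors g = (1 / 2) ^ cardFactors g * (1 / 2) ^ cardFactors g := by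
        rw [← mul_pow]; norm_num
      have h8 : ∀ a b : ℕ, a + b ≤ k → (1 : ℝ) ≤ 2 ^ k * ((1 / 2) ^ a * (1 / 2) ^ b) := by
        intro a b hab
        rw [← pow_add, one_div, inv_pow, ← div_eq_mul_inv, one_le_div (by positivity)]
        exact pow_le_pow_right₀ (by norm_num) hab
      have h9 := h8 _ _ h3
      have h10 := h8 _ _ h4
      calc (1 : ℝ) = 1 * 1 := by ring
        _ ≤ _ := mul_le_mul h9 h10 (by norm_num) (by positivity)
        _ = _ := by rw [h6, h7]; ring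
    unfold v
    calc 1 / ((g : ℝ) * x * y) = 1 * (1 / (g * x * y)) := by ring
      _ ≤ 4 ^ k * ((1 / 4 : ℝ) ^ cardFactors g * (1 / 2) ^ cardFactors x *
        (1 / 2) ^ cardFactors y) * (1 / (g * x * y)) :=
          mul_le_mul_of_nonneg_right h5 (by positivity)
      _ = _ := by field_simp
  refine h1.trans ?_
  rw [← Finset.sum_image (f := f) (fun x _ y _ h => hinj h)]
  have h2 : ((A ×ˢ A).filter (fun q => P q.1 q.2)).image i ⊆
      (Icc 1 M) ×ˢ (((Icc 1 M) ×ˢ (Icc 1 M)).filter (fun q => P q.1 q.2)) := by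
    intro t ht
    rw [mem_image] at ht
    obtain ⟨⟨m, n⟩, hq, rfl⟩ := ht
    rw [mem_filter, mem_product] at hq
    obtain ⟨⟨hm, hn⟩, hPmn⟩ := hq
    have hm' := hA m hm
    have hn' := hA n hn
    have hgx := (hmul (m, n)).1
    have hgy := (hmul (m, n)).2
    show (Nat.gcd m n, m / Nat.gcd m n, n / Nat.gcd m n) ∈ _
    change Nat.gcd m n * (m / Nat.gcd m n) = m at hgx
    change Nat.gcd m n * (n / Nat.gcd m n) = n at hgy
    have hg0 : 0 < Nat.gcd m n := Nat.gcd_pos_of_pos_left _ (by omega)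
    have hgm : Nat.gcd m n ≤ m := Nat.le_of_dvd (by omega) (Nat.gcd_dvd_left _ _)
    have hgn : Nat.gcd m n ≤ n := Nat.le_of_dvd (by omega) (Nat.gcd_dvd_right _ _)
    rw [mem_product, mem_filter, mem_product, mem_Icc, mem_Icc, mem_Icc]
    refine ⟨⟨hg0, hgm.trans hm'.2.1⟩, ⟨⟨?_, ?_⟩, ⟨?_, ?_⟩⟩, ?_⟩
    · exact Nat.div_pos hgm hg0
    · exact (Nat.div_le_self _ _).trans hm'.2.1
    · exact Nat.div_pos hgn hg0
    · exact (Nat.div_le_self _ _).trans hn'.2.1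
    · apply hP _ _ _ hg0
      show P (Nat.gcd m n * (m / Nat.gcd m n)) (Nat.gcd m n * (n / Nat.gcd m n))
      rw [hgx, hgy]
      exact hPmn
  refine (Finset.sum_le_sum_of_subset_of_nonneg h2 fun t _ _ => hf t).trans (le_of_eq ?_)
  rw [Finset.sum_product]
  unfold W
  rw [Finset.sum_mul, Finset.mul_sum]
  apply Finset.sum_congr rfl
  intro g _
  rw [Finset.mul_sum, Finset.mul_sum]

theorem sum_all (M : ℕ) : ∑ q ∈ ((Icc 1 M) ×ˢ (Icc 1 M)).filter (fun _ => True), v q.1 * v q.2 =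
    W (1 / 2) M ^ 2 := by
  rw [Finset.filter_true, sq]
  unfold W
  rw [Finset.sum_mul_sum, ← Finset.sum_product']
  rfl

end Pool.Agent.U843.ME
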