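import Pool.Agent.U843.ME.S5
import Pool.Agent.U843.ME.Defs

set_option autoImplicit false

open Finset ArithmeticFunction

namespace Pool.Agent.U843.ME

/-- the primes `p` with `N / 4 < m p ≤ N` -/
def Pr (N m : ℕ) : Finset ℕ := (Icc 1 N).filter (fun p => p.Prime ∧ N < 4 * m * p ∧ m * p ≤ N)

theorem sum_Pr (N m : ℕ) (hm : 1 ≤ m) :
    ∑ p ∈ Pr N m, Real.log p = Chebyshev.theta ((N : ℝ) / m) - Chebyshev.theta ((N : ℝ) / m / 4) := by
  have h1 : ⌊(N : ℝ) / m⌋₊ = N / m := Nat.floor_div_eq_div N m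
  have h2 : ⌊(N : ℝ) / m / 4⌋₊ = N / (4 * m) := by
    have : (N : ℝ) / m / 4 = (N : ℝ) / ((4 * m : ℕ) : ℝ) := by
      push_cast; rw [div_div, mul_comm]
    rw [this, Nat.floor_div_eq_div]
  unfold Chebyshev.theta
  rw [h1, h2, eq_sub_iff_add_eq, ← Finset.sum_union]
  · apply Finset.sum_congr _ fun _ _ => rfl
    ext p
    unfold Pr
    simp only [mem_union, mem_filter, mem_Icc, mem_Ioc]
    rw [Nat.le_div_iff_mul_le (by omega), Nat.le_div_iff_mul_le (by omega)]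
    constructor
    · rintro (⟨⟨h3, h4⟩, h5, h6, h7⟩ | ⟨⟨h3, h4⟩, h5⟩)
      · exact ⟨⟨h3, by rw [mul_comm]; exact h7⟩, h5⟩
      · refine ⟨⟨h3, ?_⟩, h5⟩
        nlinarith
    · rintro ⟨⟨h3, h4⟩, h5⟩
      by_cases h6 : p * (4 * m) ≤ N
      · right; exact ⟨⟨h3, h6⟩, h5⟩
      · left
        refine ⟨⟨h3, ?_⟩, h5, ?_, ?_⟩
        · nlinarith
        · rw [mul_comm]; omega
        · rw [mul_comm]; exact h4
  · rw [Finset.disjoint_left]
    intro p hp hq
    unfold Pr at hp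
    simp only [mem_filter, mem_Icc, mem_Ioc] at hp hq
    have h3 := hq.1.2
    rw [Nat.le_div_iff_mul_le (by omega), mul_comm] at h3
    omega

theorem theta_diff {y : ℝ} (hy : (100 : ℝ) ^ 4 ≤ y) :
    y / 4 ≤ Chebyshev.theta y - Chebyshev.theta (y / 4) := by
  have hy0 : 0 < y := by linarith [show (0 : ℝ) < 100 ^ 4 by norm_num]
  have h1 := Chebyshev.theta_ge' (x := y) (by linarith [show (1 : ℝ) ≤ 100 ^ 4 by norm_num])
  have h2 := Chebyshev.theta_le_log4_mul_x (x := y / 4) (by linarith)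
  obtain ⟨t, ht⟩ : ∃ t, t = Real.sqrt (Real.sqrt y) := ⟨_, rfl⟩
  have ht0 : 0 < t := by rw [ht]; exact Real.sqrt_pos.2 (Real.sqrt_pos.2 hy0)
  have ht2 : t ^ 2 = Real.sqrt y := by rw [ht, Real.sq_sqrt (Real.sqrt_nonneg _)]
  have ht4 : t ^ 4 = y := by
    rw [show t ^ 4 = (t ^ 2) ^ 2 by ring, ht2, Real.sq_sqrt hy0.le]
  have ht100 : 100 ≤ t := by
    by_contra h
    push Not at h
    have := pow_lt_pow_left₀ h ht0.le (n := 4) (by norm_num)
    linarith
  have h3 : Real.log y ≤ 4 * t := by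
    rw [← ht4, Real.log_pow]
    push_cast
    have := Real.log_le_sub_one_of_pos ht0
    linarith
  have h4 : Real.log (y + 2) ≤ 2 + 4 * t := by
    have h5 : Real.log (y + 2) ≤ Real.log (3 * y) := Real.log_le_log (by linarith) (by nlinarith)
    rw [Real.log_mul (by norm_num) hy0.ne'] at h5
    have h6 := Real.log_le_sub_one_of_pos (show (0 : ℝ) < 3 by norm_num)
    linarith
  have h5 : Real.log 4 = 2 * Real.log 2 := by
    rw [show (4 : ℝ) = 2 ^ 2 by norm_num, Real.log_pow]; push_cast; ring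
  rw [← ht2] at h1
  rw [h5] at h2
  have h6 := Real.log_two_gt_d9
  have h7 := Real.log_two_lt_d9
  have h8 : 2 * t ^ 2 * Real.log y ≤ 8 * t ^ 3 := by
    have : 0 ≤ 2 * t ^ 2 := by positivity
    nlinarith [mul_le_mul_of_nonneg_left h3 this]
  have h9 : 8 * t ^ 3 ≤ 8 / 100 * y := by
    rw [← ht4]
    nlinarith [mul_le_mul_of_nonneg_left ht100 (show 0 ≤ t ^ 3 by positivity)]
  have h10 : 4 * t ≤ 1 / 1000 * y := by
    have h11 : (100 : ℝ) ^ 3 ≤ t ^ 3 := pow_le_pow_left₀ (by norm_num) ht100 3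
    rw [← ht4]
    nlinarith [mul_le_mul_of_nonneg_left h11 ht0.le]
  nlinarith

/-- conditions on `N` and `M` -/
structure Good (N M : ℕ) : Prop where
  big : 1000 ≤ M
  lo : M ^ 4 ≤ N
  hi : N < (M + 1) ^ 4

variable {N M : ℕ}

theorem Good.log_le (h : Good N M) : Real.log N ≤ 5 * Real.log M := by
  have h1 : N ≤ M ^ 5 := by
    have h2 : (M + 1) ^ 4 ≤ (2 * M) ^ 4 := Nat.pow_le_pow_left (by have := h.big; omega) 4
    have h3 : (2 * M) ^ 4 = 16 * M ^ 4 := by ring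
    have h4 : M ^ 5 = M * M ^ 4 := by ring
    have h5 : 16 * M ^ 4 ≤ M * M ^ 4 := Nat.mul_le_mul_right _ (by have := h.big; omega)
    have := h.hi
    omega
  have hN : 0 < N := by
    have := h.lo
    have h6 : 0 < M ^ 4 := Nat.pow_pos (by have := h.big; omega)
    omega
  have h2 : Real.log N ≤ Real.log ((M ^ 5 : ℕ) : ℝ) :=
    Real.log_le_log (by exact_mod_cast hN) (by exact_mod_cast h1)
  rw [Nat.cast_pow, Real.log_pow] at h2
  exact_mod_cast h2

theorem Good.posN (h : Good N M) : (0 : ℝ) < N := by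
  have := h.lo
  have h6 : 0 < M ^ 4 := Nat.pow_pos (by have := h.big; omega)
  exact_mod_cast (by omega : 0 < N)

theorem Good.logN (h : Good N M) : 1 < Real.log N := by
  apply log_gt_one
  have := h.lo
  have h1 : M ≤ M ^ 4 := Nat.le_self_pow (by norm_num) M
  have := h.big
  omega

theorem Pr_gt (h : Good N M) {m p : ℕ} (hm : m ≤ M) (hp : p ∈ Pr N m) : M < p := by
  unfold Pr at hp
  rw [mem_filter] at hp
  by_contra hc
  push Not at hc
  have h1 := hp.2.2.1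
  have h2 := h.lo
  have h3 := h.big
  have h4 : 4 * m * p ≤ 4 * M * M := Nat.mul_le_mul (by omega) hc
  have h5 : M ^ 4 = M * M * (M * M) := by ring
  have h6 : 1000 * 1000 ≤ M * M := Nat.mul_le_mul h3 h3
  nlinarith

theorem card_Pr_le (h : Good N M) {m : ℕ} (hm1 : 1 ≤ m) (hm : m ≤ M) :
    ((Pr N m).card : ℝ) ≤ 7 * N / (m * Real.log N) := by
  have hL := h.logN
  have hlM := h.log_le
  have hm0 : (0 : ℝ) < m := by exact_mod_cast hm1
  have h1 : ((Pr N m).card : ℝ) * Real.log M ≤ ∑ p ∈ Pr N m, Real.log p := by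
    rw [← nsmul_eq_mul]
    apply Finset.card_nsmul_le_sum
    intro p hp
    have h2 := Pr_gt h hm hp
    apply Real.log_le_log
    · have := h.big; exact_mod_cast (by omega : 0 < M)
    · exact_mod_cast h2.le
  rw [sum_Pr N m hm1] at h1
  have h2 := Chebyshev.theta_le_log4_mul_x (x := (N : ℝ) / m) (by positivity)
  have h3 := Chebyshev.theta_nonneg ((N : ℝ) / m / 4)
  have h5 : Real.log 4 = 2 * Real.log 2 := by
    rw [show (4 : ℝ) = 2 ^ 2 by norm_num, Real.log_pow]; push_cast; ring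
  have h7 := Real.log_two_lt_d9
  have h8 : ((Pr N m).card : ℝ) * Real.log M ≤ 7 / 5 * (N / m) := by
    have h9 : (0 : ℝ) ≤ N / m := by positivity
    nlinarith
  have h10 : ((Pr N m).card : ℝ) * Real.log N ≤ 7 * (N / m) := by
    have := mul_le_mul_of_nonneg_left hlM (Nat.cast_nonneg (α := ℝ) (Pr N m).card)
    linarith
  rw [le_div_iff₀ (by positivity)]
  calc ((Pr N m).card : ℝ) * (m * Real.log N) = ((Pr N m).card : ℝ) * Real.log N * m := by ring
    _ ≤ 7 * (N / m) * m := mul_le_mul_of_nonneg_right h10 hm0.le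
    _ = 7 * N := by field_simp

theorem card_Pr_ge (h : Good N M) {m : ℕ} (hm1 : 1 ≤ m) (hm : m ≤ M) :
    1 / 4 * (N / (m * Real.log N)) ≤ ((Pr N m).card : ℝ) := by
  have hL := h.logN
  have hm0 : (0 : ℝ) < m := by exact_mod_cast hm1
  have h1 : ∑ p ∈ Pr N m, Real.log p ≤ ((Pr N m).card : ℝ) * Real.log N := by
    rw [← nsmul_eq_mul]
    apply Finset.sum_le_card_nsmul
    intro p hp
    unfold Pr at hp
    rw [mem_filter, mem_Icc] at hp
    apply Real.log_le_log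
    · exact_mod_cast hp.1.1
    · exact_mod_cast hp.1.2
  rw [sum_Pr N m hm1] at h1
  have h2 : (100 : ℝ) ^ 4 ≤ (N : ℝ) / m := by
    rw [le_div_iff₀ hm0]
    have h3 : 100 ^ 4 * m ≤ N := by
      have h4 : 1000 * 1000 * 1000 ≤ M ^ 3 := by
        have := Nat.pow_le_pow_left h.big 3
        omega
      have h5 : M ^ 4 = M ^ 3 * M := by ring
      have h6 : 100 ^ 4 * m ≤ M ^ 3 * M := Nat.mul_le_mul (by omega) hm
      have := h.lo
      omega
    exact_mod_cast h3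
  have h3 := theta_diff h2
  have h4 : (N : ℝ) / m / 4 ≤ ((Pr N m).card : ℝ) * Real.log N := h3.trans h1
  have h5 : 1 / 4 * ((N : ℝ) / (m * Real.log N)) = (N : ℝ) / m / 4 / Real.log N := by
    field_simp
  rw [h5, div_le_iff₀ (by linarith)]
  exact h4

/-- the set of the products `m p`, `m ∈ A`, `p ∈ Pr N m` -/
def BB (N : ℕ) (A : Finset ℕ) : Finset ℕ := (A.sigma (fun m => Pr N m)).image (fun t => t.1 * t.2)

theorem injBB (h : Good N M) {A : Finset ℕ} (hA : ∀ m ∈ A, 1 ≤ m ∧ m ≤ M) :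
    Set.InjOn (fun t : (_ : ℕ) × ℕ => t.1 * t.2) (A.sigma (fun m => Pr N m) : Set ((_ : ℕ) × ℕ)) := by
  rintro ⟨m, p⟩ h1 ⟨n, q⟩ h2 h3
  simp only [coe_sigma, Set.mem_sigma_iff, mem_coe] at h1 h2 h3
  have hp := Pr_gt h (hA m h1.1).2 h1.2
  have hq := Pr_gt h (hA n h2.1).2 h2.2
  have hpp : p.Prime := (mem_filter.1 h1.2).2.1
  have hqp : q.Prime := (mem_filter.1 h2.2).2.1
  have hpq : p = q := by
    have h4 : p ∣ n * q := ⟨m, by rw [← h3, mul_comm]⟩
    rcases (hpp.dvd_mul).1 h4 with h5 | h5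
    · have := Nat.le_of_dvd (hA n h2.1).1 h5
      have := (hA n h2.1).2
      omega
    · exact (Nat.prime_dvd_prime_iff_eq hpp hqp).1 h5
  subst hpq
  have : m = n := Nat.eq_of_mul_eq_mul_right hpp.pos h3
  subst this
  rfl

theorem card_BB (h : Good N M) {A : Finset ℕ} (hA : ∀ m ∈ A, 1 ≤ m ∧ m ≤ M) :
    (BB N A).card = ∑ m ∈ A, (Pr N m).card := by
  unfold BB
  rw [Finset.card_image_of_injOn (injBB h hA), Finset.card_sigma]

theorem mem_BB {A : Finset ℕ} {a : ℕ} (ha : a ∈ BB N A) : a ∈ Icc 1 N ∧ N < 4 * a := by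
  unfold BB at ha
  rw [mem_image] at ha
  obtain ⟨⟨m, p⟩, h1, rfl⟩ := ha
  rw [mem_sigma] at h1
  have h2 := (mem_filter.1 h1.2).2
  simp only at h2 ⊢
  rw [mem_Icc]
  have h3 : 4 * m * p = 4 * (m * p) := by ring
  refine ⟨⟨?_, h2.2.2⟩, by omega⟩
  by_contra h4
  have : m * p = 0 := by omega
  omega

theorem energy_le (B : Finset ℕ) (N : ℕ) (hB : ∀ a ∈ B, a ∈ Icc 1 N ∧ N < 4 * a) :
    energy B N ≤ ∑ q ∈ B ×ˢ B, 4 * Nat.gcd q.1 q.2 := by
  have h0 : ∑ q ∈ B ×ˢ B, 4 * Nat.gcd q.1 q.2 =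
      ((B ×ˢ B).sigma (fun q => Icc 1 (4 * Nat.gcd q.1 q.2))).card := by
    rw [Finset.card_sigma]
    apply Finset.sum_congr rfl
    intro q _
    rw [Nat.card_Icc]; omega
  rw [h0]
  unfold energy
  have key : ∀ a b c d : ℕ, a ∈ B → c ∈ B → a * b = c * d → c / Nat.gcd a c ∣ b := by
    intro a b c d ha hc h
    rw [mem_coe.symm] at ha
    have hc1 : 0 < c := by have := (mem_Icc.1 (hB c hc).1).1; omega
    have hg : 0 < Nat.gcd a c := Nat.gcd_pos_of_pos_right _ hc1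
    have hcop : Nat.Coprime (c / Nat.gcd a c) (a / Nat.gcd a c) :=
      (Nat.coprime_div_gcd_div_gcd hg).symm
    apply hcop.dvd_of_dvd_mul_left
    refine ⟨d, ?_⟩
    have h1 : Nat.gcd a c * (a / Nat.gcd a c) = a := Nat.mul_div_cancel' (Nat.gcd_dvd_left _ _)
    have h2 : Nat.gcd a c * (c / Nat.gcd a c) = c := Nat.mul_div_cancel' (Nat.gcd_dvd_right _ _)
    apply Nat.eq_of_mul_eq_mul_left hg
    rw [← mul_assoc, h1, ← mul_assoc, h2, h]
  apply Finset.card_le_card_of_injOn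
    (fun t => (⟨(t.1, t.2.2.1), t.2.1 / (t.2.2.1 / Nat.gcd t.1 t.2.2.1)⟩ : (_ : ℕ × ℕ) × ℕ))
  · rintro ⟨a, b, c, d⟩ ht
    rw [mem_coe, mem_filter, mem_product, mem_product, mem_product] at ht
    obtain ⟨⟨ha, hb, hc, hd⟩, h⟩ := ht
    simp only at ha hb hc hd h
    rw [mem_coe, mem_sigma, mem_product]
    refine ⟨⟨ha, hc⟩, ?_⟩
    show b / (c / Nat.gcd a c) ∈ Icc 1 (4 * Nat.gcd a c)
    rw [mem_Icc] at hb ⊢
    have hdv := key a b c d ha hc h
    have hc1 : 0 < c := by have := (mem_Icc.1 (hB c hc).1).1; omega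
    have hg : 0 < Nat.gcd a c := Nat.gcd_pos_of_pos_right _ hc1
    have h2 : Nat.gcd a c * (c / Nat.gcd a c) = c := Nat.mul_div_cancel' (Nat.gcd_dvd_right _ _)
    have hcg : 0 < c / Nat.gcd a c := Nat.div_pos (Nat.le_of_dvd hc1 (Nat.gcd_dvd_right _ _)) hg
    constructor
    · exact Nat.div_pos (Nat.le_of_dvd (by omega) hdv) hcg
    · apply le_of_lt
      rw [Nat.div_lt_iff_lt_mul hcg, mul_assoc, h2]
      have := (hB c hc).2
      omega
  · rintro ⟨a, b, c, d⟩ ht ⟨a', b', c', d'⟩ ht' heq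
    rw [mem_coe, mem_filter, mem_product, mem_product, mem_product] at ht ht'
    obtain ⟨⟨ha, hb, hc, hd⟩, h⟩ := ht
    obtain ⟨⟨ha', hb', hc', hd'⟩, h'⟩ := ht'
    simp only at ha hb hc hd h ha' hb' hc' hd' h'
    simp only [Sigma.mk.injEq, Prod.mk.injEq] at heq
    obtain ⟨⟨rfl, rfl⟩, h3⟩ := heq
    have h3' := eq_of_heq h3
    have hdv := key a b c d ha hc h
    have hdv' := key a b' c d' ha hc h'
    have hbb : b = b' := by
      rw [← Nat.div_mul_cancel hdv, ← Nat.div_mul_cancel hdv', h3']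
    subst hbb
    have hc1 : 0 < c := by have := (mem_Icc.1 (hB c hc).1).1; omega
    have hdd : d = d' := Nat.eq_of_mul_eq_mul_left hc1 (h.symm.trans h')
    subst hdd
    rfl

end Pool.Agent.U843.ME
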