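import Pool.Agent.U843.ME.S6

set_option autoImplicit false

open Finset ArithmeticFunction

namespace Pool.Agent.U843.ME

variable {N M : ℕ}

theorem gcd_le (h : Good N M) {m n p q : ℕ} (hm : 1 ≤ m ∧ m ≤ M) (hn : 1 ≤ n ∧ n ≤ M)
    (hp : p ∈ Pr N m) (hq : q ∈ Pr N n) :
    (Nat.gcd (m * p) (n * q) : ℝ) ≤
      Nat.gcd m n + if p = q then (p : ℝ) * Nat.gcd m n else 0 := by
  have hpp : p.Prime := (mem_filter.1 hp).2.1
  have hqp : q.Prime := (mem_filter.1 hq).2.1
  have hpM := Pr_gt h hm.2 hp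
  have hqM := Pr_gt h hn.2 hq
  split_ifs with hpq
  · subst hpq
    rw [Nat.gcd_mul_right]
    push_cast
    have : (0 : ℝ) ≤ Nat.gcd m n := by positivity
    linarith
  · have h1 : Nat.Coprime p (n * q) := by
      rw [Nat.Prime.coprime_iff_not_dvd hpp]
      intro hd
      rcases (hpp.dvd_mul).1 hd with h5 | h5
      · have := Nat.le_of_dvd hn.1 h5; omega
      · exact hpq ((Nat.prime_dvd_prime_iff_eq hpp hqp).1 h5)
    have h2 : Nat.Coprime q m := by
      rw [Nat.Prime.coprime_iff_not_dvd hqp]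
      intro hd
      have := Nat.le_of_dvd hm.1 hd; omega
    have h3 : Nat.gcd (m * p) (n * q) = Nat.gcd m n := by
      rw [Nat.Coprime.gcd_mul_right_cancel m h1, Nat.Coprime.gcd_mul_right_cancel_right n h2.symm.symm]
    rw [h3, add_zero]

theorem pair_le (h : Good N M) {m n : ℕ} (hm : 1 ≤ m ∧ m ≤ M) (hn : 1 ≤ n ∧ n ≤ M) :
    ∑ p ∈ Pr N m, ∑ q ∈ Pr N n, (Nat.gcd (m * p) (n * q) : ℝ) ≤
      (Nat.gcd m n : ℝ) / (m * n) * (49 * N ^ 2 / Real.log N ^ 2) +
      if Cmp m n then (Nat.gcd m n : ℝ) / (m * n) * (7 * N ^ 2 / Real.log N) else 0 := by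
  have hL := h.logN
  have hN := h.posN
  have hm0 : (0 : ℝ) < m := by exact_mod_cast hm.1
  have hn0 : (0 : ℝ) < n := by exact_mod_cast hn.1
  have hg0 : (0 : ℝ) ≤ Nat.gcd m n := by positivity
  have h1 : ∑ p ∈ Pr N m, ∑ q ∈ Pr N n, (Nat.gcd (m * p) (n * q) : ℝ) ≤
      ∑ p ∈ Pr N m, ∑ q ∈ Pr N n, ((Nat.gcd m n : ℝ) + if p = q then (p : ℝ) * Nat.gcd m n else 0) :=
    Finset.sum_le_sum fun p hp => Finset.sum_le_sum fun q hq => gcd_le h hm hn hp hq
  refine h1.trans ?_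
  simp_rw [Finset.sum_add_distrib]
  apply add_le_add
  · rw [Finset.sum_const, Finset.sum_const, nsmul_eq_mul, nsmul_eq_mul]
    have h2 := card_Pr_le h hm.1 hm.2
    have h3 := card_Pr_le h hn.1 hn.2
    calc ((Pr N m).card : ℝ) * (((Pr N n).card : ℝ) * (Nat.gcd m n : ℝ))
        ≤ 7 * N / (m * Real.log N) * (7 * N / (n * Real.log N) * (Nat.gcd m n : ℝ)) := by
          gcongr
      _ = _ := by field_simp; ring
  · simp_rw [Finset.sum_ite_eq]
    split_ifs with hc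
    · have h2 : ∑ p ∈ Pr N m, (if p ∈ Pr N n then (p : ℝ) * Nat.gcd m n else 0) ≤
          ∑ p ∈ Pr N m, (N : ℝ) / n * Nat.gcd m n := by
        apply Finset.sum_le_sum
        intro p _
        split_ifs with hq
        · apply mul_le_mul_of_nonneg_right _ hg0
          rw [le_div_iff₀ hn0]
          have h3 : n * p ≤ N := (mem_filter.1 hq).2.2.2
          rw [mul_comm]
          exact_mod_cast h3
        · positivity
      refine h2.trans ?_
      rw [Finset.sum_const, nsmul_eq_mul]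
      have h3 := card_Pr_le h hm.1 hm.2
      calc ((Pr N m).card : ℝ) * ((N : ℝ) / n * Nat.gcd m n)
          ≤ 7 * N / (m * Real.log N) * ((N : ℝ) / n * Nat.gcd m n) := by gcongr
        _ = _ := by field_simp
    · apply le_of_eq
      apply Finset.sum_eq_zero
      intro p hp
      rw [if_neg]
      intro hq
      apply hc
      have h3 := (mem_filter.1 hp).2
      have h4 := (mem_filter.1 hq).2
      have hp0 : 0 < p := h3.1.pos
      constructor
      · have : m * p < 4 * n * p := by omega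
        exact Nat.lt_of_mul_lt_mul_right this
      · have : n * p < 4 * m * p := by omega
        exact Nat.lt_of_mul_lt_mul_right this

theorem energy_BB_le (h : Good N M) (k : ℕ) {A : Finset ℕ}
    (hA : ∀ m ∈ A, 1 ≤ m ∧ m ≤ M ∧ cardFactors m ≤ k) :
    (energy (BB N A) N : ℝ) ≤ 4 ^ k * W (1 / 4) M * (196 * N ^ 2 / Real.log N ^ 2 * W (1 / 2) M ^ 2 +
      28 * N ^ 2 / Real.log N *
      ∑ q ∈ ((Icc 1 M) ×ˢ (Icc 1 M)).filter (fun q => Cmp q.1 q.2), v q.1 * v q.2) := by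
  have hA' : ∀ m ∈ A, 1 ≤ m ∧ m ≤ M := fun m hm => ⟨(hA m hm).1, (hA m hm).2.1⟩
  have hL := h.logN
  have h1 : (energy (BB N A) N : ℝ) ≤ ∑ q ∈ BB N A ×ˢ BB N A, 4 * (Nat.gcd q.1 q.2 : ℝ) := by
    have := energy_le (BB N A) N (fun a ha => mem_BB ha)
    exact_mod_cast this
  have h2 : ∑ q ∈ BB N A ×ˢ BB N A, 4 * (Nat.gcd q.1 q.2 : ℝ) =
      4 * ∑ m ∈ A, ∑ n ∈ A, ∑ p ∈ Pr N m, ∑ q ∈ Pr N n, (Nat.gcd (m * p) (n * q) : ℝ) := by
    rw [← Finset.mul_sum, Finset.sum_product]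
    congr 1
    unfold BB
    rw [Finset.sum_image (injBB h hA'), Finset.sum_sigma]
    apply Finset.sum_congr rfl
    intro m _
    rw [Finset.sum_comm' (s := A) (t := fun n => Pr N m) (t' := Pr N m) (s' := fun _ => A)
      (by intro x y; tauto)]
    apply Finset.sum_congr rfl
    intro p _
    rw [Finset.sum_image (injBB h hA'), Finset.sum_sigma]
  rw [h2] at h1
  have h3 : ∑ m ∈ A, ∑ n ∈ A, ∑ p ∈ Pr N m, ∑ q ∈ Pr N n, (Nat.gcd (m * p) (n * q) : ℝ) ≤
      ∑ m ∈ A, ∑ n ∈ A, ((Nat.gcd m n : ℝ) / (m * n) * (49 * N ^ 2 / Real.log N ^ 2) +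
      if Cmp m n then (Nat.gcd m n : ℝ) / (m * n) * (7 * N ^ 2 / Real.log N) else 0) :=
    Finset.sum_le_sum fun m hm => Finset.sum_le_sum fun n hn => pair_le h (hA' m hm) (hA' n hn)
  have h4 : ∑ m ∈ A, ∑ n ∈ A, ((Nat.gcd m n : ℝ) / (m * n) * (49 * N ^ 2 / Real.log N ^ 2) +
      if Cmp m n then (Nat.gcd m n : ℝ) / (m * n) * (7 * N ^ 2 / Real.log N) else 0) =
      49 * N ^ 2 / Real.log N ^ 2 *
        ∑ q ∈ (A ×ˢ A).filter (fun _ => True), (Nat.gcd q.1 q.2 : ℝ) / (q.1 * q.2) +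
      7 * N ^ 2 / Real.log N *
        ∑ q ∈ (A ×ˢ A).filter (fun q => Cmp q.1 q.2), (Nat.gcd q.1 q.2 : ℝ) / (q.1 * q.2) := by
    rw [Finset.filter_true, Finset.sum_filter, Finset.sum_product, Finset.sum_product,
      Finset.mul_sum, Finset.mul_sum, ← Finset.sum_add_distrib]
    apply Finset.sum_congr rfl
    intro m _
    rw [Finset.mul_sum, Finset.mul_sum, ← Finset.sum_add_distrib]
    apply Finset.sum_congr rfl
    intro n _
    split_ifs
    · ring
    · ring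
  have h5 := gcd_sum_le A M k hA (fun _ _ => True) (fun _ _ _ _ _ => trivial)
  have h6 := gcd_sum_le A M k hA Cmp (by
    intro g x y hg hc
    unfold Cmp at hc ⊢
    constructor
    · have : g * x < g * (4 * y) := by calc g * x < 4 * (g * y) := hc.1
          _ = g * (4 * y) := by ring
      exact Nat.lt_of_mul_lt_mul_left this
    · have : g * y < g * (4 * x) := by calc g * y < 4 * (g * x) := hc.2
          _ = g * (4 * x) := by ring
      exact Nat.lt_of_mul_lt_mul_left this)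
  rw [sum_all] at h5
  rw [h4] at h3
  have ha : (0 : ℝ) ≤ 49 * N ^ 2 / Real.log N ^ 2 := by positivity
  have hb : (0 : ℝ) ≤ 7 * N ^ 2 / Real.log N := by
    apply div_nonneg (by positivity) (by linarith)
  have h7 := mul_le_mul_of_nonneg_left h5 ha
  have h8 := mul_le_mul_of_nonneg_left h6 hb
  calc (energy (BB N A) N : ℝ) ≤ _ := h1
    _ ≤ 4 * (49 * N ^ 2 / Real.log N ^ 2 * (4 ^ k * (W (1 / 4) M * W (1 / 2) M ^ 2)) +
        7 * N ^ 2 / Real.log N * (4 ^ k * (W (1 / 4) M *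
          ∑ q ∈ ((Icc 1 M) ×ˢ (Icc 1 M)).filter (fun q => Cmp q.1 q.2), v q.1 * v q.2))) := by
      linarith
    _ = _ := by ring

end Pool.Agent.U843.ME
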