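import Pool.Agent.U843.ME.S7

set_option autoImplicit false

open Finset ArithmeticFunction Filter

namespace Pool.Agent.U843.ME

theorem greedy {T : ℝ} (hT : 0 < T) (S : Finset ℕ) (hS : ∀ m ∈ S, 1 ≤ m)
    (h : T ≤ ∑ m ∈ S, (1 : ℝ) / m) :
    ∃ A ⊆ S, T ≤ ∑ m ∈ A, (1 : ℝ) / m ∧ ∑ m ∈ A, (1 : ℝ) / m ≤ T + 1 := by
  classical
  induction S using Finset.induction_on with
  | empty => simp at h; linarith
  | insert a S ha ih =>
    by_cases h1 : T ≤ ∑ m ∈ S, (1 : ℝ) / m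
    · obtain ⟨A, hA, h2⟩ := ih (fun m hm => hS m (mem_insert_of_mem hm)) h1
      exact ⟨A, hA.trans (subset_insert _ _), h2⟩
    · refine ⟨insert a S, Subset.rfl, h, ?_⟩
      rw [Finset.sum_insert ha]
      have h2 : (1 : ℝ) ≤ a := by exact_mod_cast hS a (mem_insert_self _ _)
      have h3 : (1 : ℝ) / a ≤ 1 := by rw [div_le_one (by linarith)]; exact h2
      push Not at h1
      linarith

theorem log_six_five_le : Real.log (6 / 5) ≤ 4 / 15 * Real.log 2 := by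
  have h1 : Real.log ((6 / 5 : ℝ) ^ 15) ≤ Real.log (2 ^ 4) :=
    Real.log_le_log (by positivity) (by norm_num)
  rw [Real.log_pow, Real.log_pow] at h1
  push_cast at h1
  linarith

theorem log_six_five_ge : 6 / 23 * Real.log 2 ≤ Real.log (6 / 5) := by
  have h1 : Real.log (2 ^ 6) ≤ Real.log ((6 / 5 : ℝ) ^ 23) :=
    Real.log_le_log (by positivity) (by norm_num)
  rw [Real.log_pow, Real.log_pow] at h1
  push_cast at h1
  linarith

/-- powers `a ^ k` against powers of `L` -/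
theorem pow_le_rpow {a L x : ℝ} (ha : 1 ≤ a) (hL : 1 < L) {k : ℕ} (hk : (k : ℝ) ≤ x * Real.log L) :
    a ^ k ≤ L ^ (x * Real.log a) := by
  rw [Real.rpow_def_of_pos (by linarith), ← Real.rpow_natCast, Real.rpow_def_of_pos (by linarith)]
  apply Real.exp_le_exp.2
  have := Real.log_nonneg ha
  nlinarith [mul_le_mul_of_nonneg_left hk this]

theorem rpow_le_pow {a L x : ℝ} (ha : 1 ≤ a) (hL : 1 < L) {k : ℕ} (hk : x * Real.log L ≤ (k : ℝ)) :
    L ^ (x * Real.log a) ≤ a ^ k := by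
  rw [Real.rpow_def_of_pos (by linarith), ← Real.rpow_natCast, Real.rpow_def_of_pos (by linarith)]
  apply Real.exp_le_exp.2
  have := Real.log_nonneg ha
  nlinarith [mul_le_mul_of_nonneg_left hk this]

variable {N M : ℕ}

/-- the integers up to `M` with `k₁ ≤ Ω ≤ k₂` -/
def A0 (M k₁ k₂ : ℕ) : Finset ℕ := (Icc 1 M).filter (fun m => k₁ ≤ cardFactors m ∧ cardFactors m ≤ k₂)

theorem mass_split (M k₁ k₂ : ℕ) : W (1 / 2) M ≤ ∑ m ∈ A0 M k₁ k₂, v m +
    (6 / 5) ^ k₁ * W (5 / 12) M + (5 / 6) ^ k₂ * W (3 / 5) M := by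
  unfold W A0
  rw [Finset.sum_filter, Finset.mul_sum, Finset.mul_sum, ← Finset.sum_add_distrib,
    ← Finset.sum_add_distrib]
  apply Finset.sum_le_sum
  intro m hm
  have hm0 : (0 : ℝ) < m := by exact_mod_cast (mem_Icc.1 hm).1
  have e1 : (0 : ℝ) ≤ (6 / 5) ^ k₁ * ((5 / 12) ^ cardFactors m / m) := by positivity
  have e2 : (0 : ℝ) ≤ (5 / 6) ^ k₂ * ((3 / 5) ^ cardFactors m / m) := by positivity
  split_ifs with h
  · unfold v
    linarith
  · rw [not_and_or] at h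
    rcases h with h | h
    · push Not at h
      have h1 : (1 / 2 : ℝ) ^ cardFactors m / m ≤ (6 / 5) ^ k₁ * ((5 / 12) ^ cardFactors m / m) := by
        rw [← mul_div_assoc]
        apply div_le_div_of_nonneg_right _ hm0.le
        have h2 : (1 / 2 : ℝ) ^ cardFactors m = (6 / 5) ^ cardFactors m * (5 / 12) ^ cardFactors m := by
          rw [← mul_pow]; norm_num
        rw [h2]
        apply mul_le_mul_of_nonneg_right _ (by positivity)
        exact pow_le_pow_right₀ (by norm_num) h.le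
      linarith
    · push Not at h
      have h1 : (1 / 2 : ℝ) ^ cardFactors m / m ≤ (5 / 6) ^ k₂ * ((3 / 5) ^ cardFactors m / m) := by
        rw [← mul_div_assoc]
        apply div_le_div_of_nonneg_right _ hm0.le
        have h2 : (1 / 2 : ℝ) ^ cardFactors m = (5 / 6) ^ cardFactors m * (3 / 5) ^ cardFactors m := by
          rw [← mul_pow]; norm_num
        rw [h2]
        apply mul_le_mul_of_nonneg_right _ (by positivity)
        exact pow_le_pow_of_le_one (by norm_num) (by norm_num) h.le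
      linarith

theorem inv_sum_ge (M k₁ k₂ : ℕ) : 2 ^ k₁ * ∑ m ∈ A0 M k₁ k₂, v m ≤ ∑ m ∈ A0 M k₁ k₂, (1 : ℝ) / m := by
  rw [Finset.mul_sum]
  apply Finset.sum_le_sum
  intro m hm
  unfold A0 at hm
  rw [mem_filter, mem_Icc] at hm
  have hm0 : (0 : ℝ) < m := by exact_mod_cast hm.1.1
  unfold v
  rw [← mul_div_assoc]
  apply div_le_div_of_nonneg_right _ hm0.le
  rw [one_div, inv_pow, ← div_eq_mul_inv, div_le_one (by positivity)]
  exact pow_le_pow_right₀ (by norm_num) hm.2.1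

/-- there are sets `A` with the right size of the sum of the inverses -/
theorem exists_A : ∃ L₀ : ℝ, ∀ N M : ℕ, Good N M → L₀ ≤ Real.log N →
    ∃ A : Finset ℕ, (∀ m ∈ A, 1 ≤ m ∧ m ≤ M ∧
      cardFactors m ≤ ⌈(14 / 25 : ℝ) * Real.log (Real.log N)⌉₊) ∧
      Real.log N ^ (4 / 5 : ℝ) ≤ ∑ m ∈ A, (1 : ℝ) / m ∧
      ∑ m ∈ A, (1 : ℝ) / m ≤ Real.log N ^ (4 / 5 : ℝ) + 1 := by
  obtain ⟨C, hC, hW⟩ := W_le
  have hl1 := log_six_five_le
  have hl2 := log_six_five_ge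
  have h2a := Real.log_two_gt_d9
  have h2b := Real.log_two_lt_d9
  -- `L ^ (1/1000)` is large
  have ht1 : ∀ᶠ L : ℝ in atTop, 20 * C ≤ L ^ (1 / 1000 : ℝ) :=
    (tendsto_rpow_atTop (by norm_num)).eventually_ge_atTop _
  have ht2 : ∀ᶠ L : ℝ in atTop, 20 ≤ L ^ (49 / 10000 : ℝ) :=
    (tendsto_rpow_atTop (by norm_num)).eventually_ge_atTop _
  obtain ⟨L₀, hL₀⟩ := eventually_atTop.1 (ht1.and ht2)
  refine ⟨L₀, fun N M hG hN => ?_⟩
  obtain ⟨hb1, hb2⟩ := hL₀ _ hN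
  have hL := hG.logN
  have hlM := hG.log_le
  obtain ⟨L, hLdef⟩ : ∃ L, L = Real.log N := ⟨_, rfl⟩
  rw [← hLdef] at hb1 hb2 hL hlM ⊢
  have hLL : 0 < Real.log L := Real.log_pos hL
  have hM3 : 3 ≤ M := by have := hG.big; omega
  have hlM1 := log_gt_one hM3
  have hlM2 : Real.log M ≤ L := by
    rw [hLdef]
    apply Real.log_le_log
    · exact_mod_cast (by omega : 0 < M)
    · have h1 : M ≤ N := (Nat.le_self_pow (by norm_num) M).trans hG.lo
      exact_mod_cast h1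
  obtain ⟨k₁, hk₁⟩ : ∃ k, k = ⌊(11 / 25 : ℝ) * Real.log L⌋₊ := ⟨_, rfl⟩
  obtain ⟨k₂, hk₂⟩ : ∃ k, k = ⌈(14 / 25 : ℝ) * Real.log L⌉₊ := ⟨_, rfl⟩
  rw [← hk₂]
  have hk1a : (k₁ : ℝ) ≤ 11 / 25 * Real.log L := by
    rw [hk₁]; exact Nat.floor_le (by positivity)
  have hk1b : 11 / 25 * Real.log L - 1 ≤ (k₁ : ℝ) := by
    have := Nat.lt_floor_add_one ((11 / 25 : ℝ) * Real.log L)
    rw [← hk₁] at this; linarith
  have hk2a : 14 / 25 * Real.log L ≤ (k₂ : ℝ) := by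
    rw [hk₂]; exact Nat.le_ceil _
  have hL0 : (0 : ℝ) < L := by linarith
  -- tails
  have ht1 : (6 / 5 : ℝ) ^ k₁ * W (5 / 12) M ≤ C * L ^ (499 / 1000 : ℝ) := by
    have h1 := pow_le_rpow (a := 6 / 5) (by norm_num) hL hk1a
    have h2 : W (5 / 12) M ≤ C * L ^ (5 / 12 : ℝ) :=
      (hW (5 / 12) (by norm_num) (by norm_num) M hM3).trans
        (mul_le_mul_of_nonneg_left (Real.rpow_le_rpow (by linarith) hlM2 (by norm_num)) (by linarith))
    calc (6 / 5 : ℝ) ^ k₁ * W (5 / 12) M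
        ≤ L ^ (11 / 25 * Real.log (6 / 5)) * (C * L ^ (5 / 12 : ℝ)) :=
          mul_le_mul h1 h2 (W_nonneg (by norm_num) M) (by positivity)
      _ = C * L ^ (11 / 25 * Real.log (6 / 5) + 5 / 12) := by
          rw [Real.rpow_add hL0]; ring
      _ ≤ C * L ^ (499 / 1000 : ℝ) := by
          apply mul_le_mul_of_nonneg_left _ (by linarith)
          apply Real.rpow_le_rpow_of_exponent_le hL.le
          linarith
  have ht2 : (5 / 6 : ℝ) ^ k₂ * W (3 / 5) M ≤ C * L ^ (499 / 1000 : ℝ) := by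
    have h1 := rpow_le_pow (a := 6 / 5) (by norm_num) hL hk2a
    have h1' : (5 / 6 : ℝ) ^ k₂ ≤ L ^ (-(14 / 25 * Real.log (6 / 5))) := by
      rw [Real.rpow_neg hL0.le, show (5 / 6 : ℝ) = (6 / 5)⁻¹ by norm_num, inv_pow]
      exact inv_anti₀ (by positivity) h1
    have h2 : W (3 / 5) M ≤ C * L ^ (3 / 5 : ℝ) :=
      (hW (3 / 5) (by norm_num) (by norm_num) M hM3).trans
        (mul_le_mul_of_nonneg_left (Real.rpow_le_rpow (by linarith) hlM2 (by norm_num)) (by linarith))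
    calc (5 / 6 : ℝ) ^ k₂ * W (3 / 5) M
        ≤ L ^ (-(14 / 25 * Real.log (6 / 5))) * (C * L ^ (3 / 5 : ℝ)) :=
          mul_le_mul h1' h2 (W_nonneg (by norm_num) M) (by positivity)
      _ = C * L ^ (-(14 / 25 * Real.log (6 / 5)) + 3 / 5) := by
          rw [Real.rpow_add hL0]; ring
      _ ≤ C * L ^ (499 / 1000 : ℝ) := by
          apply mul_le_mul_of_nonneg_left _ (by linarith)
          apply Real.rpow_le_rpow_of_exponent_le hL.le
          linarith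
  -- the main term
  have hsq : L ^ (1 / 2 : ℝ) = L ^ (1 / 1000 : ℝ) * L ^ (499 / 1000 : ℝ) := by
    rw [← Real.rpow_add hL0]; norm_num
  have hmain : 1 / 5 * L ^ (1 / 2 : ℝ) ≤ W (1 / 2) M := by
    refine le_trans ?_ (W_ge M)
    rw [← Real.sqrt_eq_rpow]
    have h1 : Real.sqrt L ≤ Real.sqrt (25 / 4 * Real.log M) := Real.sqrt_le_sqrt (by linarith)
    rw [Real.sqrt_mul (by norm_num), show (25 / 4 : ℝ) = (5 / 2) ^ 2 by norm_num,
      Real.sqrt_sq (by norm_num)] at h1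
    linarith
  have hx : 0 < L ^ (499 / 1000 : ℝ) := by positivity
  have hmass : 1 / 10 * L ^ (1 / 2 : ℝ) ≤ ∑ m ∈ A0 M k₁ k₂, v m := by
    have h1 := mass_split M k₁ k₂
    have h2 : 2 * (C * L ^ (499 / 1000 : ℝ)) ≤ 1 / 10 * L ^ (1 / 2 : ℝ) := by
      rw [hsq]
      nlinarith [mul_le_mul_of_nonneg_right hb1 hx.le]
    linarith
  have h2k : L ^ (3 / 10 + 49 / 10000 : ℝ) ≤ 2 * 2 ^ k₁ := by
    have h1 := rpow_le_pow (a := 2) (x := 11 / 25) (k := k₁ + 1) (by norm_num) hL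
      (by push_cast; linarith)
    rw [pow_succ] at h1
    refine le_trans ?_ (h1.trans (le_of_eq (mul_comm _ _)))
    apply Real.rpow_le_rpow_of_exponent_le hL.le
    linarith
  have hinv : L ^ (4 / 5 : ℝ) ≤ ∑ m ∈ A0 M k₁ k₂, (1 : ℝ) / m := by
    refine le_trans ?_ (inv_sum_ge M k₁ k₂)
    have h1 : L ^ (4 / 5 : ℝ) * L ^ (49 / 10000 : ℝ) = L ^ (3 / 10 + 49 / 10000 : ℝ) * L ^ (1 / 2 : ℝ) := by
      rw [← Real.rpow_add hL0, ← Real.rpow_add hL0]; norm_num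
    have h2 : L ^ (3 / 10 + 49 / 10000 : ℝ) * L ^ (1 / 2 : ℝ) ≤
        (2 * 2 ^ k₁) * (10 * ∑ m ∈ A0 M k₁ k₂, v m) :=
      mul_le_mul h2k (by linarith) (by positivity) (by positivity)
    have h3 : 20 * L ^ (4 / 5 : ℝ) ≤ L ^ (4 / 5 : ℝ) * L ^ (49 / 10000 : ℝ) := by
      have : 0 ≤ L ^ (4 / 5 : ℝ) := by positivity
      nlinarith
    nlinarith
  obtain ⟨A, hA, hA1, hA2⟩ := greedy (T := L ^ (4 / 5 : ℝ)) (by positivity) (A0 M k₁ k₂) (by
    intro m hm
    unfold A0 at hm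
    rw [mem_filter, mem_Icc] at hm
    exact hm.1.1) hinv
  refine ⟨A, ?_, hA1, hA2⟩
  intro m hm
  have := hA hm
  unfold A0 at this
  rw [mem_filter, mem_Icc] at this
  exact ⟨this.1.1, this.1.2, this.2.2⟩

end Pool.Agent.U843.ME
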