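import Pool.Agent.U843.ME.S8

set_option autoImplicit false

open Finset ArithmeticFunction Filter

namespace Pool.Agent.U843.ME

theorem good_sqrt {N : ℕ} (hN : 1000 ^ 4 ≤ N) : Good N (Nat.sqrt (Nat.sqrt N)) := by
  obtain ⟨s, hs⟩ : ∃ s, s = Nat.sqrt N := ⟨_, rfl⟩
  obtain ⟨M, hM⟩ : ∃ M, M = Nat.sqrt s := ⟨_, rfl⟩
  rw [← hs, ← hM]
  have h1 : s ^ 2 ≤ N := by rw [hs]; exact Nat.sqrt_le' N
  have h2 : N < (s + 1) ^ 2 := by rw [hs]; exact Nat.lt_succ_sqrt' N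
  have h3 : M ^ 2 ≤ s := by rw [hM]; exact Nat.sqrt_le' s
  have h4 : s < (M + 1) ^ 2 := by rw [hM]; exact Nat.lt_succ_sqrt' s
  have h5 : M ^ 4 ≤ N := by
    calc M ^ 4 = (M ^ 2) ^ 2 := by ring
      _ ≤ s ^ 2 := Nat.pow_le_pow_left h3 2
      _ ≤ N := h1
  have h6 : N < (M + 1) ^ 4 := by
    calc N < (s + 1) ^ 2 := h2
      _ ≤ ((M + 1) ^ 2) ^ 2 := Nat.pow_le_pow_left h4 2
      _ = (M + 1) ^ 4 := by ring
  refine ⟨?_, h5, h6⟩
  by_contra h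
  push Not at h
  have : (M + 1) ^ 4 ≤ 1000 ^ 4 := Nat.pow_le_pow_left (by omega) 4
  omega

theorem exists_B : ∃ (K : ℝ) (N₀ : ℕ), ∀ N : ℕ, N₀ ≤ N → ∃ B : Finset ℕ, B ⊆ Icc 1 N ∧
    1 / 4 * (N * Real.log N ^ (-(1 / 5) : ℝ)) ≤ (B.card : ℝ) ∧
    (B.card : ℝ) ≤ 14 * (N * Real.log N ^ (-(1 / 5) : ℝ)) ∧
    (energy B N : ℝ) ≤ K * (N * B.card * Real.log N ^ (1 / 4 : ℝ)) := by
  obtain ⟨L₀, hA⟩ := exists_A
  obtain ⟨C, hC, hW⟩ := W_le
  obtain ⟨D, hD, hQ⟩ := Q_le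
  have ht : ∀ᶠ N : ℕ in atTop, L₀ ≤ Real.log N :=
    (Real.tendsto_log_atTop.comp tendsto_natCast_atTop_atTop).eventually_ge_atTop L₀
  obtain ⟨N₁, hN₁⟩ := eventually_atTop.1 ht
  refine ⟨16 * C * (196 * C ^ 2 + 28 * D) * 100, max N₁ (1000 ^ 4), fun N hN => ?_⟩
  have hN1 : N₁ ≤ N := (le_max_left _ _).trans hN
  have hG := good_sqrt ((le_max_right _ _).trans hN)
  obtain ⟨M, hMdef⟩ : ∃ M, M = Nat.sqrt (Nat.sqrt N) := ⟨_, rfl⟩
  rw [← hMdef] at hG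
  obtain ⟨A, hAM, hA1, hA2⟩ := hA N M hG (hN₁ N hN1)
  have hA' : ∀ m ∈ A, 1 ≤ m ∧ m ≤ M := fun m hm => ⟨(hAM m hm).1, (hAM m hm).2.1⟩
  have hE := energy_BB_le hG _ hAM
  have hcard := card_BB hG hA'
  have hL := hG.logN
  have hN0 := hG.posN
  have hlM := hG.log_le
  have hM3 : 3 ≤ M := by have := hG.big; omega
  have hlM1 := log_gt_one hM3
  obtain ⟨L, hLdef⟩ : ∃ L, L = Real.log N := ⟨_, rfl⟩
  have hlM2 : Real.log M ≤ L := by
    rw [hLdef]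
    apply Real.log_le_log
    · exact_mod_cast (by omega : 0 < M)
    · have h1 : M ≤ N := (Nat.le_self_pow (by norm_num) M).trans hG.lo
      exact_mod_cast h1
  have hPle : ∀ m ∈ A, ((Pr N m).card : ℝ) ≤ 7 * N / (m * L) := fun m hm => by
    rw [hLdef]; exact card_Pr_le hG (hA' m hm).1 (hA' m hm).2
  have hPge : ∀ m ∈ A, 1 / 4 * (N / (m * L)) ≤ ((Pr N m).card : ℝ) := fun m hm => by
    rw [hLdef]; exact card_Pr_ge hG (hA' m hm).1 (hA' m hm).2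
  rw [← hLdef] at hA1 hA2 hE hL hlM ⊢
  have hL0 : (0 : ℝ) < L := by linarith
  have hLL : 0 < Real.log L := Real.log_pos hL
  have hcard' : ((BB N A).card : ℝ) = ∑ m ∈ A, ((Pr N m).card : ℝ) := by
    rw [hcard]; push_cast; rfl
  have hp1 : L ^ (4 / 5 : ℝ) / L = L ^ (-(1 / 5) : ℝ) := by
    rw [div_eq_mul_inv, ← Real.rpow_neg_one L, ← Real.rpow_add hL0]; norm_num
  -- lower bound for the size
  have hlow : 1 / 4 * (N * L ^ (-(1 / 5) : ℝ)) ≤ ((BB N A).card : ℝ) := by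
    have h1 : ∑ m ∈ A, 1 / 4 * ((N : ℝ) / (m * L)) ≤ ((BB N A).card : ℝ) := by
      rw [hcard']; exact Finset.sum_le_sum hPge
    refine le_trans ?_ h1
    have h2 : ∑ m ∈ A, 1 / 4 * ((N : ℝ) / (m * L)) = 1 / 4 * (N / L) * ∑ m ∈ A, (1 : ℝ) / m := by
      rw [Finset.mul_sum]
      apply Finset.sum_congr rfl
      intro m _
      ring
    rw [h2, ← hp1]
    calc 1 / 4 * ((N : ℝ) * (L ^ (4 / 5 : ℝ) / L)) = 1 / 4 * (N / L) * L ^ (4 / 5 : ℝ) := by ring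
      _ ≤ _ := mul_le_mul_of_nonneg_left hA1 (by positivity)
  -- upper bound for the size
  have hup : ((BB N A).card : ℝ) ≤ 14 * (N * L ^ (-(1 / 5) : ℝ)) := by
    have h1 : ((BB N A).card : ℝ) ≤ ∑ m ∈ A, 7 * (N : ℝ) / (m * L) := by
      rw [hcard']; exact Finset.sum_le_sum hPle
    refine h1.trans ?_
    have h2 : ∑ m ∈ A, 7 * (N : ℝ) / (m * L) = 7 * (N / L) * ∑ m ∈ A, (1 : ℝ) / m := by
      rw [Finset.mul_sum]
      apply Finset.sum_congr rfl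
      intro m _
      ring
    rw [h2, ← hp1]
    have h3 : (1 : ℝ) ≤ L ^ (4 / 5 : ℝ) := Real.one_le_rpow hL.le (by norm_num)
    calc 7 * ((N : ℝ) / L) * ∑ m ∈ A, (1 : ℝ) / m ≤ 7 * (N / L) * (2 * L ^ (4 / 5 : ℝ)) :=
          mul_le_mul_of_nonneg_left (by linarith) (by positivity)
      _ = _ := by ring
  refine ⟨BB N A, fun a ha => (mem_BB ha).1, hlow, hup, ?_⟩
  -- the energy
  obtain ⟨k, hk⟩ : ∃ k, k = ⌈(14 / 25 : ℝ) * Real.log L⌉₊ := ⟨_, rfl⟩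
  rw [← hk] at hE
  have hk1 : (k : ℝ) ≤ 14 / 25 * Real.log L + 1 := by
    rw [hk]; exact (Nat.ceil_lt_add_one (by positivity)).le
  have h2a := Real.log_two_gt_d9
  have h2b := Real.log_two_lt_d9
  have hlog4 : Real.log 4 = 2 * Real.log 2 := by
    rw [show (4 : ℝ) = 2 ^ 2 by norm_num, Real.log_pow]; push_cast; ring
  have h4k : (4 : ℝ) ^ k ≤ 4 * L ^ (777 / 1000 : ℝ) := by
    rcases Nat.eq_zero_or_pos k with h0 | h0
    · rw [h0, pow_zero]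
      have : (1 : ℝ) ≤ L ^ (777 / 1000 : ℝ) := Real.one_le_rpow hL.le (by norm_num)
      linarith
    · obtain ⟨j, hj⟩ : ∃ j, k = j + 1 := ⟨k - 1, by omega⟩
      rw [hj] at hk1 ⊢
      push_cast at hk1
      have h1 := pow_le_rpow (a := 4) (x := 14 / 25) (k := j) (by norm_num) hL (by linarith)
      rw [pow_succ, mul_comm]
      apply mul_le_mul_of_nonneg_left _ (by norm_num)
      refine h1.trans ?_
      apply Real.rpow_le_rpow_of_exponent_le hL.le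
      rw [hlog4]
      linarith
  have hW4 : W (1 / 4) M ≤ C * L ^ (1 / 4 : ℝ) :=
    (hW (1 / 4) (by norm_num) (by norm_num) M hM3).trans
      (mul_le_mul_of_nonneg_left (Real.rpow_le_rpow (by linarith) hlM2 (by norm_num)) (by linarith))
  have hW2 : W (1 / 2) M ^ 2 ≤ C ^ 2 * L := by
    have h1 : W (1 / 2) M ≤ C * L ^ (1 / 2 : ℝ) :=
      (hW (1 / 2) (by norm_num) (by norm_num) M hM3).trans
        (mul_le_mul_of_nonneg_left (Real.rpow_le_rpow (by linarith) hlM2 (by norm_num)) (by linarith))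
    have h2 := pow_le_pow_left₀ (W_nonneg (by norm_num) M) h1 2
    rw [mul_pow, ← Real.sqrt_eq_rpow, Real.sq_sqrt hL0.le] at h2
    exact h2
  have hlogL : 1 + Real.log L ≤ 100 * L ^ (23 / 1000 : ℝ) := by
    have h1 := Real.log_le_rpow_div hL0.le (show (0 : ℝ) < 23 / 1000 by norm_num)
    have h2 : (1 : ℝ) ≤ L ^ (23 / 1000 : ℝ) := Real.one_le_rpow hL.le (by norm_num)
    have h3 : L ^ (23 / 1000 : ℝ) / (23 / 1000 : ℝ) = 1000 / 23 * L ^ (23 / 1000 : ℝ) := by ring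
    rw [h3] at h1
    linarith
  have hQ' := hQ M (by omega)
  have hll : Real.log (Real.log (4 * ((M + 1 : ℕ) : ℝ))) ≤ Real.log L := by
    apply Real.log_le_log (by have := log4x (x := M + 1) (by omega); linarith)
    rw [hLdef]
    apply Real.log_le_log (by positivity)
    have h1 : 4 * (M + 1) ≤ N := by
      refine le_trans ?_ hG.lo
      have h2 := hG.big
      have h3 : M ^ 4 = M * M * M * M := by ring
      have h4 : 1000 * 1000 ≤ M * M := Nat.mul_le_mul h2 h2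
      nlinarith
    exact_mod_cast h1
  obtain ⟨Q, hQd⟩ : ∃ Q, Q = ∑ q ∈ ((Icc 1 M) ×ˢ (Icc 1 M)).filter (fun q => Cmp q.1 q.2), v q.1 * v q.2 :=
    ⟨_, rfl⟩
  rw [← hQd] at hQ' hE
  have hQ0 : 0 ≤ Q := by
    rw [hQd]; exact Finset.sum_nonneg fun q _ => mul_nonneg (v_nonneg _) (v_nonneg _)
  have hQ'' : Q ≤ D * (1 + Real.log L) :=
    hQ'.trans (mul_le_mul_of_nonneg_left (by linarith) (by linarith))
  have hin : 196 * (N : ℝ) ^ 2 / L ^ 2 * W (1 / 2) M ^ 2 + 28 * N ^ 2 / L * Q ≤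
      (196 * C ^ 2 + 28 * D) * (1 + Real.log L) * (N ^ 2 / L) := by
    have h1 : 196 * (N : ℝ) ^ 2 / L ^ 2 * W (1 / 2) M ^ 2 ≤ 196 * N ^ 2 / L ^ 2 * (C ^ 2 * L) :=
      mul_le_mul_of_nonneg_left hW2 (by positivity)
    have h2 : 28 * (N : ℝ) ^ 2 / L * Q ≤ 28 * N ^ 2 / L * (D * (1 + Real.log L)) :=
      mul_le_mul_of_nonneg_left hQ'' (by positivity)
    have h3 : 196 * (N : ℝ) ^ 2 / L ^ 2 * (C ^ 2 * L) = 196 * C ^ 2 * (N ^ 2 / L) := by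
      field_simp
    have h4 : 28 * (N : ℝ) ^ 2 / L * (D * (1 + Real.log L)) =
        28 * D * (1 + Real.log L) * (N ^ 2 / L) := by ring
    have h5 : 0 ≤ 196 * C ^ 2 * ((N : ℝ) ^ 2 / L) * Real.log L := by positivity
    rw [h3] at h1
    rw [h4] at h2
    nlinarith
  have h1 : (energy (BB N A) N : ℝ) ≤ (4 * L ^ (777 / 1000 : ℝ)) * (C * L ^ (1 / 4 : ℝ)) *
      ((196 * C ^ 2 + 28 * D) * (100 * L ^ (23 / 1000 : ℝ)) * (N ^ 2 / L)) := by
    refine hE.trans ?_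
    apply mul_le_mul
    · exact mul_le_mul h4k hW4 (W_nonneg (by norm_num) M) (by positivity)
    · refine hin.trans ?_
      apply mul_le_mul_of_nonneg_right _ (by positivity)
      exact mul_le_mul_of_nonneg_left hlogL (by positivity)
    · positivity
    · positivity
  have hpow : L ^ (777 / 1000 : ℝ) * L ^ (1 / 4 : ℝ) * L ^ (23 / 1000 : ℝ) / L =
      L ^ (-(1 / 5) : ℝ) * L ^ (1 / 4 : ℝ) := by
    rw [div_eq_mul_inv, ← Real.rpow_neg_one L, ← Real.rpow_add hL0, ← Real.rpow_add hL0,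
      ← Real.rpow_add hL0, ← Real.rpow_add hL0]
    norm_num
  have h2 : (4 * L ^ (777 / 1000 : ℝ)) * (C * L ^ (1 / 4 : ℝ)) *
      ((196 * C ^ 2 + 28 * D) * (100 * L ^ (23 / 1000 : ℝ)) * ((N : ℝ) ^ 2 / L)) =
      4 * C * (196 * C ^ 2 + 28 * D) * 100 * N ^ 2 * (L ^ (-(1 / 5) : ℝ) * L ^ (1 / 4 : ℝ)) := by
    rw [← hpow]; ring
  rw [h2] at h1
  have h3 : 4 * C * (196 * C ^ 2 + 28 * D) * 100 * (N : ℝ) ^ 2 * (L ^ (-(1 / 5) : ℝ) * L ^ (1 / 4 : ℝ)) =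
      16 * C * (196 * C ^ 2 + 28 * D) * 100 * (N * (1 / 4 * (N * L ^ (-(1 / 5) : ℝ))) * L ^ (1 / 4 : ℝ)) := by
    ring
  rw [h3] at h1
  refine h1.trans ?_
  have hc0 : 0 ≤ 16 * C * (196 * C ^ 2 + 28 * D) * 100 := by positivity
  apply mul_le_mul_of_nonneg_left _ hc0
  apply mul_le_mul_of_nonneg_right _ (by positivity)
  exact mul_le_mul_of_nonneg_left hlow hN0.le

end Pool.Agent.U843.ME
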